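import Pool.Agent.W270.TM.CountM

/-!
# The exceptional set of the modified Szpiro inequality for curves with a rational 2-torsion point
-/

set_option autoImplicit false
set_option linter.unusedVariables false

namespace Pool.Agent.W270.TM

open Finset
open Pool.Agent.H328R2.ABC
open Pool.Agent.H925R.Szpiro (D IsMin condS int_root)
open Pool.Agent.H925R.Two (sqf sqf_spec sqf_sq sum_keys HasRoot root_bound mdl2 two_data cond_lower
  min_no_pow small_prime)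

/-- the number of `(κ, t)` -/
theorem FFM_card (θ β ρ K ε : ℝ) (hρ : ρ ≤ 1 / 2) (hθ : 0 ≤ θ) (w1 : 1 ≤ θ + β * (2 - ρ))
    (w2 : 1 ≤ 2 * θ + β * (2 - 2 * ρ)) (w3 : 1 ≤ 3 * θ + β * (2 - 3 * ρ))
    (hB : TwoBound θ β ρ K) (hε : 0 < ε) :
    ∃ C : ℝ, 0 < C ∧ ∀ M : ℕ, 1 ≤ M → ((FFM K ρ M).card : ℝ) ≤ C * (M : ℝ) ^ (θ + ε) := by
  classical
  obtain ⟨C1, hC1, h1⟩ := hB (ε / 4) (by positivity)
  obtain ⟨C2, hC2, h2⟩ := sum_inv_rad (ε / 4) (by positivity)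
  refine ⟨6 ^ 5 * C1 * C2 ^ 3, by positivity, fun M hM => ?_⟩
  have hM0 : (0 : ℝ) < M := by exact_mod_cast hM
  set Keys : Finset (ℕ × (ℕ × (ℕ × ℕ))) := (Icc 1 (6 ^ 5)) ×ˢ (Icc 1 M ×ˢ (Icc 1 M ×ˢ Icc 1 M))
    with hKeys
  have hFsub : ∀ u ∈ FFM K ρ M, u.1 ∈ Keys ∧ TC 2 K ρ (sqf (u.1.1 * u.1.2.1 * u.1.2.2.2))
      (M / (u.1.2.1 * u.1.2.2.1 ^ 2 * u.1.2.2.2 ^ 3))
      (LamM ρ u.1.2.1 u.1.2.2.1 u.1.2.2.2) u.2 := by
    intro u hu
    unfold FFM at hu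
    rw [mem_filter, mem_product] at hu
    exact ⟨hu.1.1, hu.2⟩
  have e1 : (FFM K ρ M).card = ∑ κ ∈ Keys, ((FFM K ρ M).filter (fun u => u.1 = κ)).card :=
    card_eq_sum_card_fiberwise (fun u hu => (hFsub u hu).1)
  have e2 : ∀ κ ∈ Keys, (((FFM K ρ M).filter (fun u => u.1 = κ)).card : ℝ) ≤
      (C1 * (M : ℝ) ^ (θ + ε / 4)) *
        (1 / (rad κ.2.1 : ℝ) * (1 / (rad κ.2.2.1 : ℝ) * (1 / (rad κ.2.2.2 : ℝ)))) := by
    rintro ⟨c, g1, gb, g3⟩ hκ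
    rw [hKeys] at hκ
    simp only [mem_product, mem_Icc] at hκ
    obtain ⟨⟨hc, hc'⟩, ⟨hg1, _⟩, ⟨hgb, _⟩, hg3, _⟩ := hκ
    simp only
    have hr1 : (0 : ℝ) < rad g1 := by exact_mod_cast rad_pos _
    have hrb : (0 : ℝ) < rad gb := by exact_mod_cast rad_pos _
    have hr3 : (0 : ℝ) < rad g3 := by exact_mod_cast rad_pos _
    rcases ((FFM K ρ M).filter (fun u => u.1 = (c, g1, gb, g3))).eq_empty_or_nonempty with he | hne
    · rw [he, card_empty, Nat.cast_zero]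
      positivity
    set N : ℕ := M / (g1 * gb ^ 2 * g3 ^ 3) with hN
    have hN1 : 1 ≤ N := by
      obtain ⟨u, hu⟩ := hne
      rw [mem_filter] at hu
      have := (hFsub u hu.1).2
      rw [hu.2] at this
      obtain ⟨t1, _, _, _, _, t2, _⟩ := this
      simp only at t2
      rw [← hN] at t2
      omega
    have hinj : Set.InjOn (fun u : (ℕ × (ℕ × (ℕ × ℕ))) × (ℕ × (ℕ × ℕ)) => u.2)
        ((FFM K ρ M).filter (fun u => u.1 = (c, g1, gb, g3)) : Finset _) := by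
      rintro ⟨u, v⟩ hu ⟨u', v'⟩ hu' he
      rw [mem_coe, mem_filter] at hu hu'
      simp only at he hu hu'
      rw [Prod.mk.injEq]
      exact ⟨hu.2.trans hu'.2.symm, he⟩
    have hV : 0 < sqf (c * g1 * g3) := by
      obtain ⟨_, _, _, _, h⟩ := sqf_spec (c * g1 * g3) (by positivity)
      exact h
    have := h1 (sqf (c * g1 * g3)) hV N hN1 (LamM ρ g1 gb g3) (LamM_one ρ hρ g1 gb g3 hg1 hgb hg3)
      (((FFM K ρ M).filter (fun u => u.1 = (c, g1, gb, g3))).image (fun u => u.2)) (fun t ht => by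
        obtain ⟨u, hu, rfl⟩ := mem_image.mp ht
        rw [mem_filter] at hu
        have := (hFsub u hu.1).2
        rw [hu.2] at this
        exact this)
    rw [card_image_of_injOn hinj] at this
    have hL := LamM_one ρ hρ g1 gb g3 hg1 hgb hg3
    have hL0 : 0 < LamM ρ g1 gb g3 := by linarith
    have hNle : (N : ℝ) ≤ M / ((g1 : ℝ) * gb ^ 2 * g3 ^ 3) := by
      have h := Nat.cast_div_le (α := ℝ) (m := M) (n := g1 * gb ^ 2 * g3 ^ 3)
      rw [hN]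
      push_cast at h
      exact h
    have hw := weight_boundM (θ + ε / 4) β ρ M hM0.le (by linarith) (by linarith) (by linarith)
      g1 gb g3 hg1 hgb hg3
    have hg1R : (0 : ℝ) < g1 := by exact_mod_cast hg1
    have hgbR : (0 : ℝ) < gb := by exact_mod_cast hgb
    have hg3R : (0 : ℝ) < g3 := by exact_mod_cast hg3
    have l1 : (1 : ℝ) / g1 ≤ 1 / rad g1 :=
      one_div_le_one_div_of_le hr1 (by exact_mod_cast rad_le (by omega))
    have lb : (1 : ℝ) / gb ≤ 1 / rad gb :=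
      one_div_le_one_div_of_le hrb (by exact_mod_cast rad_le (by omega))
    have l3 : (1 : ℝ) / g3 ≤ 1 / rad g3 :=
      one_div_le_one_div_of_le hr3 (by exact_mod_cast rad_le (by omega))
    have hθ4 : 0 ≤ θ + ε / 4 := by positivity
    calc (((FFM K ρ M).filter (fun u => u.1 = (c, g1, gb, g3))).card : ℝ)
        ≤ C1 * (N : ℝ) ^ (θ + ε / 4) * LamM ρ g1 gb g3 ^ (-β) := this
      _ ≤ C1 * (M / ((g1 : ℝ) * gb ^ 2 * g3 ^ 3)) ^ (θ + ε / 4) *
            LamM ρ g1 gb g3 ^ (-β) := by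
          gcongr
      _ = C1 * ((M / ((g1 : ℝ) * gb ^ 2 * g3 ^ 3)) ^ (θ + ε / 4) *
            LamM ρ g1 gb g3 ^ (-β)) := by ring
      _ ≤ C1 * ((M : ℝ) ^ (θ + ε / 4) *
            (1 / (g1 : ℝ) * (1 / (gb : ℝ) * (1 / (g3 : ℝ))))) :=
          mul_le_mul_of_nonneg_left hw hC1.le
      _ ≤ C1 * ((M : ℝ) ^ (θ + ε / 4) *
            (1 / (rad g1 : ℝ) * (1 / (rad gb : ℝ) * (1 / (rad g3 : ℝ))))) := by
          gcongr
      _ = _ := by ring
  have e3 : ((FFM K ρ M).card : ℝ) ≤ (C1 * (M : ℝ) ^ (θ + ε / 4)) *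
      (6 ^ 5 * (∑ n ∈ Icc 1 M, (1 : ℝ) / rad n) ^ 3) := by
    rw [e1]
    push_cast
    refine (sum_le_sum e2).trans ?_
    rw [← mul_sum, hKeys, sum_keys (Icc 1 (6 ^ 5)) (Icc 1 M) (fun n => (1 : ℝ) / rad n)]
    rw [Nat.card_Icc]
    norm_num
  have e4 := h2 M hM
  have hs0 : 0 ≤ ∑ n ∈ Icc 1 M, (1 : ℝ) / rad n := sum_nonneg fun _ _ => by positivity
  calc ((FFM K ρ M).card : ℝ) ≤ _ := e3
    _ ≤ (C1 * (M : ℝ) ^ (θ + ε / 4)) * (6 ^ 5 * (C2 * (M : ℝ) ^ (ε / 4)) ^ 3) := by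
        gcongr
    _ = 6 ^ 5 * C1 * C2 ^ 3 * ((M : ℝ) ^ (θ + ε / 4) * ((M : ℝ) ^ (ε / 4)) ^ 3) := by ring
    _ = 6 ^ 5 * C1 * C2 ^ 3 * (M : ℝ) ^ (θ + ε) := by
        congr 1
        rw [← Real.rpow_natCast, ← Real.rpow_mul hM0.le, ← Real.rpow_add hM0]
        congr 1
        push_cast
        ring

/-- the curves with `b = 0` -/
theorem exc_zeroM (κ K : ℝ) (hκ : 6 ≤ κ) (hK : 0 < K) (X : ℕ) (a : ℤ)
    (h : (a, (0 : ℤ)) ∈ ExcTM κ K X) : |(a : ℝ)| ≤ (216 : ℝ) ^ κ * K := by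
  classical
  obtain ⟨hmin, -, -, -, hbig⟩ := h
  simp only at hmin hbig
  have ha0 : a ≠ 0 := by
    rintro rfl
    apply hmin.1
    unfold D
    norm_num
  set n : ℕ := a.natAbs with hn
  have hn0 : n ≠ 0 := Int.natAbs_ne_zero.mpr ha0
  have hfac : ∀ p : ℕ, p.Prime → n.factorization p ≤ 3 := by
    intro p hp
    by_contra hcon
    push Not at hcon
    have h1 : p ^ 4 ∣ n := (hp.pow_dvd_iff_le_factorization hn0).mpr hcon
    have h2 : ((p ^ 4 : ℕ) : ℤ) ∣ a := Int.natCast_dvd.mpr h1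
    refine min_no_pow a 0 0 hmin (by ring) p hp.two_le (dvd_zero _) ?_
    have : (3 : ℤ) * 0 ^ 2 - a = -a := by ring
    rw [this, dvd_neg]
    exact_mod_cast h2
  have hn3 : n ≤ rad n ^ 3 := by
    calc n = ∏ p ∈ n.primeFactors, p ^ n.factorization p :=
          (Nat.prod_factorization_pow_eq_self hn0).symm
      _ ≤ ∏ p ∈ n.primeFactors, p ^ 3 := by
          refine prod_le_prod' (fun p hp => ?_)
          have hpp := Nat.prime_of_mem_primeFactors hp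
          exact Nat.pow_le_pow_right hpp.pos (hfac p hpp)
      _ = rad n ^ 3 := by unfold rad; rw [prod_pow]
  have hD : D a 0 = 4 * a ^ 3 := by unfold D; ring
  set r5 : ℕ := ∏ p ∈ n.primeFactors.filter (fun p => 5 ≤ p), p with hr5
  have hdvda : ∀ p : ℕ, p ∣ n → (p : ℤ) ∣ a := fun p hp => Int.natCast_dvd.mpr hp
  have hlow := cond_lower a 0 hmin.1 (n.primeFactors.filter (fun p => 5 ≤ p)) 1 one_ne_zero (by
    intro p hp
    rw [mem_filter] at hp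
    have hd := hdvda p (Nat.dvd_of_mem_primeFactors hp.1)
    refine ⟨Nat.prime_of_mem_primeFactors hp.1, hp.2, hd, ?_⟩
    rw [hD]
    exact (hd.pow (by norm_num)).mul_left _) (by
    intro p hp hp5 h1
    exact absurd (Nat.dvd_one.mp h1) hp.one_lt.ne')
  have hfilt : (n.primeFactors.filter (fun p => 5 ≤ p)).filter (fun p => ¬ p ∣ 1) =
      n.primeFactors.filter (fun p => 5 ≤ p) := by
    apply filter_true_of_mem
    intro p hp h1
    rw [mem_filter] at hp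
    have := Nat.dvd_one.mp h1
    omega
  rw [hfilt, ← hr5] at hlow
  have hrad1 : rad 1 = 1 := by simp [rad]
  rw [hrad1, one_mul] at hlow
  have hr : rad n ≤ 6 * r5 := by
    unfold rad
    rw [← prod_filter_mul_prod_filter_not n.primeFactors (fun p => 5 ≤ p), mul_comm]
    refine Nat.mul_le_mul_right _ ?_
    have : ∏ p ∈ n.primeFactors.filter (fun p => ¬ 5 ≤ p), p ≤ ∏ p ∈ ({2, 3} : Finset ℕ), p := by
      refine prod_le_prod_of_subset_of_one_le' ?_ ?_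
      · intro p hp
        rw [mem_filter] at hp
        exact small_prime p (Nat.prime_of_mem_primeFactors hp.1) hp.2
      · intro p hp _
        simp only [mem_insert, mem_singleton] at hp
        omega
    rw [prod_pair (by norm_num)] at this
    omega
  set S : ℝ := (condS a 0 : ℝ) with hS
  have hS0 : 0 ≤ S := Nat.cast_nonneg _
  have q1 : (n : ℝ) ≤ (6 * (r5 : ℝ)) ^ 3 := by
    have : n ≤ (6 * r5) ^ 3 := hn3.trans (Nat.pow_le_pow_left hr 3)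
    exact_mod_cast this
  have q2 : (r5 : ℝ) * r5 ≤ 6 * S := by
    rw [hS]
    exact_mod_cast hlow
  have hnabs : |(a : ℝ)| = (n : ℝ) := by
    rw [hn, Nat.cast_natAbs, Int.cast_abs]
  have hn1 : (1 : ℝ) ≤ n := by exact_mod_cast Nat.one_le_iff_ne_zero.mpr hn0
  have hn00 : (0 : ℝ) < n := by linarith
  rw [hnabs] at hbig ⊢
  have hmax : max ((n : ℝ) ^ 3) (((0 : ℤ) : ℝ) ^ 2) = (n : ℝ) ^ 3 := by
    apply max_eq_left
    norm_num
  rw [hmax] at hbig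
  -- `n ^ (2/3) ≤ 216 S`
  have q3 : (n : ℝ) ^ ((2 : ℝ) / 3) ≤ 216 * S := by
    have e1 : (n : ℝ) ^ ((2 : ℝ) / 3) ≤ ((6 * (r5 : ℝ)) ^ 3) ^ ((2 : ℝ) / 3) :=
      Real.rpow_le_rpow hn00.le q1 (by norm_num)
    have e2 : ((6 * (r5 : ℝ)) ^ 3) ^ ((2 : ℝ) / 3) = (6 * (r5 : ℝ)) ^ 2 := by
      rw [← Real.rpow_natCast _ 3, ← Real.rpow_mul (by positivity), ← Real.rpow_natCast _ 2]
      norm_num
    rw [e2] at e1
    calc (n : ℝ) ^ ((2 : ℝ) / 3) ≤ (6 * (r5 : ℝ)) ^ 2 := e1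
      _ = 36 * ((r5 : ℝ) * r5) := by ring
      _ ≤ 36 * (6 * S) := by linarith
      _ = _ := by ring
  have q4 : (n : ℝ) ^ (4 : ℕ) ≤ (216 : ℝ) ^ κ * S ^ κ := by
    calc (n : ℝ) ^ (4 : ℕ) = (n : ℝ) ^ (4 : ℝ) := by
          rw [← Real.rpow_natCast]; norm_num
      _ ≤ (n : ℝ) ^ ((2 : ℝ) / 3 * κ) := Real.rpow_le_rpow_of_exponent_le hn1 (by linarith)
      _ = ((n : ℝ) ^ ((2 : ℝ) / 3)) ^ κ := Real.rpow_mul hn00.le _ _
      _ ≤ (216 * S) ^ κ := Real.rpow_le_rpow (by positivity) q3 (by linarith)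
      _ = _ := Real.mul_rpow (by norm_num) hS0
  have q5 : (n : ℝ) ^ 3 * n ≤ (n : ℝ) ^ 3 * ((216 : ℝ) ^ κ * K) := by
    calc (n : ℝ) ^ 3 * n = (n : ℝ) ^ (4 : ℕ) := by ring
      _ ≤ (216 : ℝ) ^ κ * S ^ κ := q4
      _ ≤ (216 : ℝ) ^ κ * (K * (n : ℝ) ^ 3) :=
          mul_le_mul_of_nonneg_left hbig.le (by positivity)
      _ = _ := by ring
  exact le_of_mul_le_mul_left q5 (by positivity)

theorem two_countM (κ θ β K ε : ℝ) (hκ : 6 ≤ κ) (hK : 0 < K) (hθ : 0 ≤ θ)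
    (w1 : 1 ≤ θ + β * (2 - 3 / κ))
    (w2 : 1 ≤ 2 * θ + β * (2 - 2 * (3 / κ))) (w3 : 1 ≤ 3 * θ + β * (2 - 3 * (3 / κ)))
    (hB : TwoBound θ β (3 / κ) (KM κ K)) (hε : 0 < ε) :
    ∃ C : ℝ, 0 < C ∧ ∀ X : ℕ, 1 ≤ X →
      (ExcTM κ K X).Finite ∧ ((ExcTM κ K X).ncard : ℝ) ≤ C * (X : ℝ) ^ (2 * θ + ε) := by
  classical
  have hρ : 3 / κ ≤ 1 / 2 := by
    rw [div_le_iff₀ (by linarith)]
    linarith
  set K' : ℝ := KM κ K with hK'
  obtain ⟨C1, hC1, h1⟩ := FFM_card θ β (3 / κ) K' (ε / 4) hρ hθ w1 w2 w3 hB (by positivity)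
  obtain ⟨C3, hC3, h3⟩ := Pool.Agent.H510R2.divisor_bound (ε / 8) (by positivity)
  set A0 : ℕ := ⌈(216 : ℝ) ^ κ * K⌉₊ with hA0
  refine ⟨(2 * A0 + 1) + 4 * (C1 * 88 ^ (θ + ε / 4) * (C3 * 88 ^ (ε / 4))), by positivity,
    fun X hX => ?_⟩
  have hX1 : (1 : ℝ) ≤ X := by exact_mod_cast hX
  have hX0 : (0 : ℝ) < X := by linarith
  set M : ℕ := 88 * X ^ 2 with hM
  have hM1 : 1 ≤ M := by
    rw [hM]
    have : 1 ≤ X ^ 2 := Nat.one_le_pow _ _ hX
    omega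
  have hMR : (M : ℝ) = 88 * (X : ℝ) ^ 2 := by rw [hM]; push_cast; ring
  set F := FFM K' (3 / κ) M with hF
  set G : Finset (ℕ × ((ℕ × (ℕ × (ℕ × ℕ))) × (ℕ × (ℕ × ℕ)))) := F.biUnion (fun u =>
    (Nat.divisors (u.2.2.1 * u.2.2.2)).image (fun d => (d, u))) with hG
  set Sg : Finset (ℤ × ℤ) := ({1, -1} : Finset ℤ) ×ˢ ({1, -1} : Finset ℤ) with hSg
  have hSgcard : Sg.card ≤ 4 := by
    rw [hSg, card_product]
    have h2 : ({1, -1} : Finset ℤ).card ≤ 2 := card_le_two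
    nlinarith
  set Z : Finset (ℤ × ℤ) := (Icc (-(A0 : ℤ)) A0) ×ˢ ({0} : Finset ℤ) with hZ
  have hZcard : Z.card = 2 * A0 + 1 := by
    rw [hZ, card_product, card_singleton, mul_one, Int.card_Icc]
    omega
  have hFprop : ∀ u ∈ F, 0 < u.2.2.1 ∧ 0 < u.2.2.2 ∧ u.2.2.1 ≤ M ∧ u.2.2.2 ≤ M := by
    intro u hu
    rw [hF] at hu
    unfold FFM at hu
    rw [mem_filter] at hu
    simp only [mem_product, mem_Icc] at hu
    obtain ⟨⟨-, -, ⟨y1, y2⟩, z1, z2⟩, -⟩ := hu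
    exact ⟨y1, z1, y2, z2⟩
  have hsub : ExcTM κ K X ⊆ ((Z ∪ (Sg ×ˢ G).image mdl2 : Finset (ℤ × ℤ)) : Set (ℤ × ℤ)) := by
    rintro ⟨a, b⟩ hq
    rw [mem_coe, mem_union]
    by_cases hb0 : b = 0
    · left
      subst hb0
      have := exc_zeroM κ K hκ hK X a hq
      have h4 : |(a : ℝ)| ≤ A0 := this.trans (Nat.le_ceil _)
      have h5 : |a| ≤ (A0 : ℤ) := by exact_mod_cast h4
      rw [hZ, mem_product, mem_Icc, mem_singleton]
      exact ⟨abs_le.mp h5, rfl⟩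
    · right
      obtain ⟨sA, sB, Ga, u, hsA, hsB, hdv, hu, hm⟩ := data_memM κ K hκ hK X hX a b hq hb0
      rw [mem_image]
      refine ⟨((sA, sB), (Ga, u)), ?_, hm⟩
      rw [mem_product]
      refine ⟨?_, ?_⟩
      · rw [hSg, mem_product]
        constructor
        · simp only [mem_insert, mem_singleton]
          exact hsA
        · simp only [mem_insert, mem_singleton]
          exact hsB
      · rw [hG, mem_biUnion]
        refine ⟨u, hu, ?_⟩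
        rw [mem_image]
        obtain ⟨p1, p2, _, _⟩ := hFprop u hu
        exact ⟨Ga, Nat.mem_divisors.mpr ⟨hdv, by positivity⟩, rfl⟩
  have hfin : (ExcTM κ K X).Finite := Set.Finite.subset (Finset.finite_toSet _) hsub
  refine ⟨hfin, ?_⟩
  have c1 : (ExcTM κ K X).ncard ≤ (Z ∪ (Sg ×ˢ G).image mdl2).card := by
    rw [← Set.ncard_coe_finset]
    exact Set.ncard_le_ncard hsub (Finset.finite_toSet _)
  have c2 : (Z ∪ (Sg ×ˢ G).image mdl2).card ≤ (2 * A0 + 1) + 4 * G.card := by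
    refine (card_union_le _ _).trans ?_
    rw [hZcard]
    refine Nat.add_le_add_left ?_ _
    exact card_image_le.trans (by rw [card_product]; exact Nat.mul_le_mul_right _ hSgcard)
  have c3 : ((ExcTM κ K X).ncard : ℝ) ≤ (2 * A0 + 1) + 4 * G.card := by exact_mod_cast c1.trans c2
  -- the divisors
  have c4 : (G.card : ℝ) ≤ F.card * (C3 * 88 ^ (ε / 4) * (X : ℝ) ^ (ε / 2)) := by
    have e1 : G.card ≤ ∑ u ∈ F, (Nat.divisors (u.2.2.1 * u.2.2.2)).card := by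
      rw [hG]
      exact card_biUnion_le.trans (sum_le_sum (fun t _ => card_image_le))
    have e2 : ((∑ u ∈ F, (Nat.divisors (u.2.2.1 * u.2.2.2)).card : ℕ) : ℝ) ≤
        ∑ u ∈ F, C3 * 88 ^ (ε / 4) * (X : ℝ) ^ (ε / 2) := by
      push_cast
      refine sum_le_sum (fun u hu => ?_)
      obtain ⟨p1, p2, p3, p4⟩ := hFprop u hu
      have hn1 : 1 ≤ u.2.2.1 * u.2.2.2 := Nat.mul_pos p1 p2
      have hnle : u.2.2.1 * u.2.2.2 ≤ M ^ 2 := by
        rw [sq]; exact Nat.mul_le_mul p3 p4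
      have hnR : ((u.2.2.1 * u.2.2.2 : ℕ) : ℝ) ≤ (88 * (X : ℝ) ^ 2) ^ 2 := by
        rw [← hMR]; exact_mod_cast hnle
      calc ((Nat.divisors (u.2.2.1 * u.2.2.2)).card : ℝ)
          ≤ C3 * ((u.2.2.1 * u.2.2.2 : ℕ) : ℝ) ^ (ε / 8) := h3 _ hn1
        _ ≤ C3 * ((88 * (X : ℝ) ^ 2) ^ 2) ^ (ε / 8) := by
            have := Real.rpow_le_rpow (Nat.cast_nonneg _) hnR (by positivity : (0 : ℝ) ≤ ε / 8)
            exact mul_le_mul_of_nonneg_left this hC3.le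
        _ = C3 * 88 ^ (ε / 4) * (X : ℝ) ^ (ε / 2) := by
            rw [← Real.rpow_natCast _ 2, ← Real.rpow_mul (by positivity),
              Real.mul_rpow (by norm_num) (by positivity), ← Real.rpow_natCast (X : ℝ) 2,
              ← Real.rpow_mul hX0.le, mul_assoc]
            congr 2
            · congr 1; push_cast; ring
            · congr 1; push_cast; ring
    calc (G.card : ℝ) ≤ ((∑ u ∈ F, (Nat.divisors (u.2.2.1 * u.2.2.2)).card : ℕ) : ℝ) := by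
          exact_mod_cast e1
      _ ≤ _ := e2
      _ = _ := by rw [sum_const, nsmul_eq_mul]
  have c5 : (F.card : ℝ) ≤ C1 * 88 ^ (θ + ε / 4) * (X : ℝ) ^ (2 * θ + ε / 2) := by
    have := h1 M hM1
    rw [hMR, Real.mul_rpow (by norm_num) (by positivity), ← Real.rpow_natCast (X : ℝ) 2,
      ← Real.rpow_mul hX0.le] at this
    refine this.trans (le_of_eq ?_)
    rw [← mul_assoc]
    congr 2
    push_cast
    ring
  have hexp : (X : ℝ) ^ (2 * θ + ε / 2) * (X : ℝ) ^ (ε / 2) = (X : ℝ) ^ (2 * θ + ε) := by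
    rw [← Real.rpow_add hX0]
    congr 1
    ring
  have c6 : (G.card : ℝ) ≤ C1 * 88 ^ (θ + ε / 4) * (X : ℝ) ^ (2 * θ + ε / 2) *
      (C3 * 88 ^ (ε / 4) * (X : ℝ) ^ (ε / 2)) :=
    c4.trans (mul_le_mul_of_nonneg_right c5 (by positivity))
  have hone : (1 : ℝ) ≤ (X : ℝ) ^ (2 * θ + ε) := Real.one_le_rpow hX1 (by linarith)
  have hA00 : (0 : ℝ) ≤ 2 * A0 + 1 := by positivity
  calc ((ExcTM κ K X).ncard : ℝ) ≤ (2 * A0 + 1) + 4 * G.card := c3
    _ ≤ (2 * A0 + 1) * (X : ℝ) ^ (2 * θ + ε) +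
        4 * (C1 * 88 ^ (θ + ε / 4) * (X : ℝ) ^ (2 * θ + ε / 2) *
          (C3 * 88 ^ (ε / 4) * (X : ℝ) ^ (ε / 2))) := by
        have := le_mul_of_one_le_right hA00 hone
        linarith
    _ = (2 * A0 + 1) * (X : ℝ) ^ (2 * θ + ε) +
        4 * (C1 * 88 ^ (θ + ε / 4) * (C3 * 88 ^ (ε / 4))) *
          ((X : ℝ) ^ (2 * θ + ε / 2) * (X : ℝ) ^ (ε / 2)) := by ring
    _ = _ := by rw [hexp]; ring

end Pool.Agent.W270.TM
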