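import Pool.Agent.H39R3.ModMain
import Pool.Agent.W270.TM.FinalM

/-!
# From global minimal equations to the models `y² = x³ - a x - b`, for any property `T`
-/

set_option autoImplicit false

namespace Pool.Agent.W270.TM

open Finset Pool.Agent.H925R.Szpiro
open Pool.Agent.H39R3 (GMin condW shortW shortW_Δ exists_min iso_short isMin_prime D_c D_scale
  cond_le condW_pos back)

theorem intsR (W : WeierstrassCurve ℤ) (hW : GMin W) :
    ∃ (a b : ℤ) (r s : ℕ), IsMin a b ∧ (∃ u : ℚ, u ≠ 0 ∧ (a : ℚ) = u ^ 4 * (27 * W.c₄ : ℤ) ∧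
      (b : ℚ) = u ^ 6 * (54 * W.c₆ : ℤ)) ∧ 0 < s ∧ s ≤ r ∧ r ∣ 6 ∧
      48 * a * (s : ℤ) ^ 4 = (r : ℤ) ^ 4 * W.c₄ ∧ 864 * b * (s : ℤ) ^ 6 = (r : ℤ) ^ 6 * W.c₆ ∧
      (16 * D a b) * (s : ℤ) ^ 12 = (r : ℤ) ^ 12 * W.Δ ∧ r ≤ 6 * s := by
  obtain ⟨u, a, b, hu, ha, hb, hmin, hu1⟩ := exists_min W hW.1
  set v : ℚ := 6 * u with hv
  have hv0 : 0 < v := by positivity
  have hva : 48 * (a : ℚ) = v ^ 4 * W.c₄ := by
    rw [ha, hv]
    push_cast
    ring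
  have hvb : 864 * (b : ℚ) = v ^ 6 * W.c₆ := by
    rw [hb, hv]
    push_cast
    ring
  have hvD : 16 * ((D a b : ℤ) : ℚ) = v ^ 12 * W.Δ := by
    have h1 : ((D a b : ℤ) : ℚ) = u ^ 12 * D (27 * W.c₄) (54 * W.c₆) := D_scale u _ _ _ _ ha hb
    rw [h1, D_c, hv]
    push_cast
    ring
  -- `1 ≤ v`
  have hv1 : 1 ≤ v := by
    by_contra hcon
    push Not at hcon
    have h1 := hW.2 (shortW a b) (iso_short W v hv0.ne' a b hva hvb)
    rw [shortW_Δ] at h1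
    have h2 : |((W.Δ : ℤ) : ℚ)| ≤ |((16 * D a b : ℤ) : ℚ)| := by exact_mod_cast h1
    push_cast at h2
    rw [hvD, abs_mul, abs_of_pos (by positivity : (0 : ℚ) < v ^ 12)] at h2
    have h3 : 0 < |((W.Δ : ℤ) : ℚ)| := abs_pos.mpr (by exact_mod_cast hW.1)
    have h4 : v ^ 12 < 1 := pow_lt_one₀ hv0.le hcon (by norm_num)
    nlinarith
  -- numerator and denominator
  set r : ℕ := v.num.natAbs with hr
  set s : ℕ := v.den with hs
  have hs0 : 0 < s := v.den_pos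
  have hnum : (v.num : ℤ) = (r : ℤ) := by
    have : 0 < v.num := Rat.num_pos.mpr hv0
    rw [hr]
    omega
  have hvrs : v = (r : ℚ) / s := by
    have := Rat.num_div_den v
    rw [hnum, Int.cast_natCast] at this
    exact this.symm
  have hsQ : (0 : ℚ) < s := by exact_mod_cast hs0
  have hcop : Nat.Coprime r s := v.reduced
  have e4 : 48 * a * (s : ℤ) ^ 4 = (r : ℤ) ^ 4 * W.c₄ := by
    have h1 := hva
    rw [hvrs, div_pow, div_mul_eq_mul_div, eq_div_iff (by positivity)] at h1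
    exact_mod_cast h1
  have e6 : 864 * b * (s : ℤ) ^ 6 = (r : ℤ) ^ 6 * W.c₆ := by
    have h1 := hvb
    rw [hvrs, div_pow, div_mul_eq_mul_div, eq_div_iff (by positivity)] at h1
    exact_mod_cast h1
  have e12 : (16 * D a b) * (s : ℤ) ^ 12 = (r : ℤ) ^ 12 * W.Δ := by
    have h1 := hvD
    rw [hvrs, div_pow, div_mul_eq_mul_div, eq_div_iff (by positivity)] at h1
    exact_mod_cast h1
  have hsr : s ≤ r := by
    rw [hvrs, le_div_iff₀ hsQ, one_mul] at hv1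
    exact_mod_cast hv1
  have hrs6 : r ≤ 6 * s := by
    have h1 : v ≤ 6 := by rw [hv]; linarith
    rw [hvrs, div_le_iff₀ hsQ] at h1
    exact_mod_cast h1
  have hcopZ4 : IsCoprime ((r : ℤ) ^ 4) ((s : ℤ) ^ 4) :=
    (Nat.isCoprime_iff_coprime.mpr hcop).pow
  have hcopZ6 : IsCoprime ((r : ℤ) ^ 6) ((s : ℤ) ^ 6) :=
    (Nat.isCoprime_iff_coprime.mpr hcop).pow
  have d4 : (r : ℤ) ^ 4 ∣ 48 * a := hcopZ4.dvd_of_dvd_mul_right ⟨W.c₄, e4⟩
  have d6 : (r : ℤ) ^ 6 ∣ 864 * b := hcopZ6.dvd_of_dvd_mul_right ⟨W.c₆, e6⟩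
  -- large primes do not divide `r`
  have hbigp : ∀ p : ℕ, p.Prime → 5 ≤ p → ¬ p ∣ r := by
    intro p hp h5 hdvd
    have hpZ : Prime (p : ℤ) := Nat.prime_iff_prime_int.mp hp
    have hd4 : (p : ℤ) ^ 4 ∣ 48 * a := (pow_dvd_pow_of_dvd (by exact_mod_cast hdvd) 4).trans d4
    have hd6 : (p : ℤ) ^ 6 ∣ 864 * b := (pow_dvd_pow_of_dvd (by exact_mod_cast hdvd) 6).trans d6
    have hn2 : ¬ p ∣ 2 := fun h => by have := Nat.le_of_dvd (by norm_num) h; omega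
    have hn3 : ¬ p ∣ 3 := fun h => by have := Nat.le_of_dvd (by norm_num) h; omega
    have hc2 : Nat.Coprime p 2 := (Nat.Prime.coprime_iff_not_dvd hp).mpr hn2
    have hc3 : Nat.Coprime p 3 := (Nat.Prime.coprime_iff_not_dvd hp).mpr hn3
    have hc48 : Nat.Coprime p 48 := by
      have : (48 : ℕ) = 2 ^ 4 * 3 := by norm_num
      rw [this]
      exact (hc2.pow_right 4).mul_right hc3
    have hc864 : Nat.Coprime p 864 := by
      have : (864 : ℕ) = 2 ^ 5 * 3 ^ 3 := by norm_num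
      rw [this]
      exact (hc2.pow_right 5).mul_right (hc3.pow_right 3)
    have k4 : (p : ℤ) ^ 4 ∣ a := by
      have h1 : IsCoprime ((p : ℤ) ^ 4) 48 := by
        have := (Nat.isCoprime_iff_coprime.mpr hc48).pow_left (m := 4)
        exact_mod_cast this
      exact h1.dvd_of_dvd_mul_left hd4
    have k6 : (p : ℤ) ^ 6 ∣ b := by
      have h1 : IsCoprime ((p : ℤ) ^ 6) 864 := by
        have := (Nat.isCoprime_iff_coprime.mpr hc864).pow_left (m := 6)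
        exact_mod_cast this
      exact h1.dvd_of_dvd_mul_left hd6
    exact isMin_prime hmin p (by omega) k4 k6
  have h4n : ¬ 4 ∣ r := by
    intro hdvd
    have hd4 : (4 : ℤ) ^ 4 ∣ 48 * a := (pow_dvd_pow_of_dvd (by exact_mod_cast hdvd) 4).trans d4
    have hd6 : (4 : ℤ) ^ 6 ∣ 864 * b := (pow_dvd_pow_of_dvd (by exact_mod_cast hdvd) 6).trans d6
    have k4 : ((2 : ℕ) : ℤ) ^ 4 ∣ a := by
      norm_num at hd4 ⊢
      omega
    have k6 : ((2 : ℕ) : ℤ) ^ 6 ∣ b := by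
      norm_num at hd6 ⊢
      omega
    exact isMin_prime hmin 2 le_rfl k4 k6
  have h9n : ¬ 9 ∣ r := by
    intro hdvd
    have hd4 : (9 : ℤ) ^ 4 ∣ 48 * a := (pow_dvd_pow_of_dvd (by exact_mod_cast hdvd) 4).trans d4
    have hd6 : (9 : ℤ) ^ 6 ∣ 864 * b := (pow_dvd_pow_of_dvd (by exact_mod_cast hdvd) 6).trans d6
    have k4 : ((3 : ℕ) : ℤ) ^ 4 ∣ a := by
      norm_num at hd4 ⊢
      omega
    have k6 : ((3 : ℕ) : ℤ) ^ 6 ∣ b := by
      norm_num at hd6 ⊢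
      omega
    exact isMin_prime hmin 3 (by norm_num) k4 k6
  have hr0 : r ≠ 0 := by omega
  have hr6 : r ∣ 6 := by
    have hsqf : Squarefree r := by
      rw [Nat.squarefree_iff_prime_squarefree]
      intro p hp hpp
      rcases Nat.lt_or_ge p 5 with h | h
      · interval_cases p
        · exact absurd hp (by norm_num)
        · exact absurd hp (by norm_num)
        · exact h4n (by simpa using hpp)
        · exact h9n (by simpa using hpp)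
        · exact absurd hp (by norm_num)
      · exact hbigp p hp h ((dvd_mul_right p p).trans hpp)
    have h1 := Nat.prod_primeFactors_of_squarefree hsqf
    rw [← h1]
    have h2 : r.primeFactors ⊆ ({2, 3} : Finset ℕ) := by
      intro p hp
      have hp' := Nat.prime_of_mem_primeFactors hp
      have hd := Nat.dvd_of_mem_primeFactors hp
      rcases Nat.lt_or_ge p 5 with h | h
      · interval_cases p
        · exact absurd hp' (by norm_num)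
        · exact absurd hp' (by norm_num)
        · simp
        · simp
        · exact absurd hp' (by norm_num)
      · exact absurd hd (hbigp p hp' h)
    have h3 := Finset.prod_dvd_prod_of_subset _ _ (fun p : ℕ => p) h2
    simpa using h3
  exact ⟨a, b, r, s, hmin, ⟨u, hu.ne', ha, hb⟩, hs0, hsr, hr6, e4, e6, e12, hrs6⟩

/-- invariants of minimal equations with the property `T` violating the inequality -/
def ExcW (T : WeierstrassCurve ℤ → Prop) (κ K : ℝ) (X : ℕ) : Set (ℤ × ℤ) :=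
  {q | ∃ W : WeierstrassCurve ℤ, GMin W ∧ T W ∧ q = (W.c₄, W.c₆) ∧
    |W.c₄| ^ 3 ≤ (X : ℤ) ^ 6 ∧ W.c₆ ^ 2 ≤ (X : ℤ) ^ 6 ∧
    K * (condW W : ℝ) ^ κ < max (|(W.c₄ : ℝ)| ^ 3) ((W.c₆ : ℝ) ^ 2)}

/-- the exceptional models with the property `U` -/
def ExcU (U : ℤ → ℤ → Prop) (κ K : ℝ) (X : ℕ) : Set (ℤ × ℤ) :=
  {q | IsMin q.1 q.2 ∧ U q.1 q.2 ∧ |q.1| ≤ (X : ℤ) ^ 2 ∧ |q.2| ≤ (X : ℤ) ^ 3 ∧
    (condS q.1 q.2 : ℝ) ^ κ < K * max (|(q.1 : ℝ)| ^ 3) ((q.2 : ℝ) ^ 2)}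

theorem excW_sub (T : WeierstrassCurve ℤ → Prop) (U : ℤ → ℤ → Prop)
    (hTU : ∀ (W : WeierstrassCurve ℤ) (u : ℚ) (a b : ℤ), u ≠ 0 → (a : ℚ) = u ^ 4 * (27 * W.c₄ : ℤ) →
      (b : ℚ) = u ^ 6 * (54 * W.c₆ : ℤ) → T W → U a b)
    (κ K : ℝ) (hκ : 6 ≤ κ) (hK : 0 < K) (X : ℕ) :
    ExcW T κ K X ⊆ back '' ((((range 7 ×ˢ range 7 : Finset (ℕ × ℕ)) : Set (ℕ × ℕ))) ×ˢ
      ExcU U κ (746496 / K) (6 * X)) := by
  rintro q ⟨W, hW, hF, rfl, h4, h6, hbig⟩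
  obtain ⟨a, b, r, s, hmin, ⟨u, hu, hua, hub⟩, hs0, hsr, hr6, e4, e6, e12, hrs6⟩ := intsR W hW
  have hfull : U a b := hTU W u a b hu hua hub hF
  have hr6' : r ≤ 6 := Nat.le_of_dvd (by norm_num) hr6
  have hr0 : 0 < r := by omega
  have hsZ : (1 : ℤ) ≤ s := by exact_mod_cast hs0
  have hrZ : (0 : ℤ) < r := by exact_mod_cast hr0
  have hsrZ : (s : ℤ) ≤ r := by exact_mod_cast hsr
  have hrsZ : (r : ℤ) ≤ 6 * s := by exact_mod_cast hrs6
  refine ⟨((r, s), (a, b)), ⟨?_, hmin, hfull, ?_, ?_, ?_⟩, ?_⟩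
  · rw [Finset.mem_coe, mem_product, mem_range, mem_range]
    simp only
    omega
  · -- `|a| ≤ (6X)²`
    have h1 : 48 * |a| * (s : ℤ) ^ 4 = (r : ℤ) ^ 4 * |W.c₄| := by
      have := congrArg abs e4
      rw [abs_mul, abs_mul, abs_mul, abs_of_pos (by norm_num : (0 : ℤ) < 48),
        abs_of_nonneg (by positivity : (0 : ℤ) ≤ (s : ℤ) ^ 4),
        abs_of_nonneg (by positivity : (0 : ℤ) ≤ (r : ℤ) ^ 4)] at this
      exact this
    have h2 : (r : ℤ) ^ 4 ≤ 1296 * (s : ℤ) ^ 4 := by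
      calc (r : ℤ) ^ 4 ≤ (6 * s) ^ 4 := pow_le_pow_left₀ hrZ.le hrsZ 4
        _ = _ := by ring
    have h3 : |W.c₄| ≤ (X : ℤ) ^ 2 := by
      have : |W.c₄| ^ 3 ≤ ((X : ℤ) ^ 2) ^ 3 := by
        calc |W.c₄| ^ 3 ≤ (X : ℤ) ^ 6 := h4
          _ = _ := by ring
      exact le_of_pow_le_pow_left₀ (by norm_num) (by positivity) this
    have hs4 : (0 : ℤ) < (s : ℤ) ^ 4 := by positivity
    have h5 : 48 * |a| * (s : ℤ) ^ 4 ≤ (1296 * (X : ℤ) ^ 2) * (s : ℤ) ^ 4 := by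
      rw [h1]
      calc (r : ℤ) ^ 4 * |W.c₄| ≤ (1296 * (s : ℤ) ^ 4) * (X : ℤ) ^ 2 :=
            mul_le_mul h2 h3 (abs_nonneg _) (by positivity)
        _ = _ := by ring
    have h6 : 48 * |a| ≤ 1296 * (X : ℤ) ^ 2 := le_of_mul_le_mul_right h5 hs4
    have h7 : (((6 * X : ℕ) : ℤ)) ^ 2 = 36 * (X : ℤ) ^ 2 := by push_cast; ring
    show |a| ≤ (((6 * X : ℕ) : ℤ)) ^ 2
    rw [h7]
    have : 0 ≤ (X : ℤ) ^ 2 := by positivity
    linarith
  · -- `|b| ≤ (6X)³`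
    have h1 : 864 * |b| * (s : ℤ) ^ 6 = (r : ℤ) ^ 6 * |W.c₆| := by
      have := congrArg abs e6
      rw [abs_mul, abs_mul, abs_mul, abs_of_pos (by norm_num : (0 : ℤ) < 864),
        abs_of_nonneg (by positivity : (0 : ℤ) ≤ (s : ℤ) ^ 6),
        abs_of_nonneg (by positivity : (0 : ℤ) ≤ (r : ℤ) ^ 6)] at this
      exact this
    have h2 : (r : ℤ) ^ 6 ≤ 46656 * (s : ℤ) ^ 6 := by
      calc (r : ℤ) ^ 6 ≤ (6 * s) ^ 6 := pow_le_pow_left₀ hrZ.le hrsZ 6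
        _ = _ := by ring
    have h3 : |W.c₆| ≤ (X : ℤ) ^ 3 := by
      have : |W.c₆| ^ 2 ≤ ((X : ℤ) ^ 3) ^ 2 := by
        calc |W.c₆| ^ 2 = W.c₆ ^ 2 := sq_abs _
          _ ≤ (X : ℤ) ^ 6 := h6
          _ = _ := by ring
      exact le_of_pow_le_pow_left₀ (by norm_num) (by positivity) this
    have hs6 : (0 : ℤ) < (s : ℤ) ^ 6 := by positivity
    have h5 : 864 * |b| * (s : ℤ) ^ 6 ≤ (46656 * (X : ℤ) ^ 3) * (s : ℤ) ^ 6 := by
      rw [h1]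
      calc (r : ℤ) ^ 6 * |W.c₆| ≤ (46656 * (s : ℤ) ^ 6) * (X : ℤ) ^ 3 :=
            mul_le_mul h2 h3 (abs_nonneg _) (by positivity)
        _ = _ := by ring
    have h6 : 864 * |b| ≤ 46656 * (X : ℤ) ^ 3 := le_of_mul_le_mul_right h5 hs6
    have h7 : (((6 * X : ℕ) : ℤ)) ^ 3 = 216 * (X : ℤ) ^ 3 := by push_cast; ring
    show |b| ≤ (((6 * X : ℕ) : ℤ)) ^ 3
    rw [h7]
    have : 0 ≤ (X : ℤ) ^ 3 := by positivity
    linarith
  · -- the inequality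
    have hcl : (condS a b : ℝ) ≤ (condW W : ℝ) := by
      exact_mod_cast cond_le W a b r s hr6 e4 e12 hW.1
    have hc0 : (0 : ℝ) ≤ (condS a b : ℝ) := Nat.cast_nonneg _
    have h1 : (condS a b : ℝ) ^ κ ≤ (condW W : ℝ) ^ κ :=
      Real.rpow_le_rpow hc0 hcl (by linarith)
    have hrR : (0 : ℝ) < r := by exact_mod_cast hr0
    have hsR : (0 : ℝ) ≤ s := Nat.cast_nonneg _
    have hsrR : (s : ℝ) ≤ r := by exact_mod_cast hsr
    have f4 : |(W.c₄ : ℝ)| ≤ 48 * |(a : ℝ)| := by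
      have e : 48 * (a : ℝ) * (s : ℝ) ^ 4 = (r : ℝ) ^ 4 * (W.c₄ : ℝ) := by exact_mod_cast e4
      have h2 := congrArg abs e
      rw [abs_mul, abs_mul, abs_mul, abs_of_pos (by norm_num : (0 : ℝ) < 48),
        abs_of_nonneg (by positivity : (0 : ℝ) ≤ (s : ℝ) ^ 4),
        abs_of_nonneg (by positivity : (0 : ℝ) ≤ (r : ℝ) ^ 4)] at h2
      have h3 : (s : ℝ) ^ 4 ≤ (r : ℝ) ^ 4 := pow_le_pow_left₀ hsR hsrR 4
      have h5 : (r : ℝ) ^ 4 * |(W.c₄ : ℝ)| ≤ (r : ℝ) ^ 4 * (48 * |(a : ℝ)|) := by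
        rw [← h2]
        calc 48 * |(a : ℝ)| * (s : ℝ) ^ 4 ≤ 48 * |(a : ℝ)| * (r : ℝ) ^ 4 :=
              mul_le_mul_of_nonneg_left h3 (by positivity)
          _ = _ := by ring
      exact le_of_mul_le_mul_left h5 (by positivity)
    have f6 : |(W.c₆ : ℝ)| ≤ 864 * |(b : ℝ)| := by
      have e : 864 * (b : ℝ) * (s : ℝ) ^ 6 = (r : ℝ) ^ 6 * (W.c₆ : ℝ) := by exact_mod_cast e6
      have h2 := congrArg abs e
      rw [abs_mul, abs_mul, abs_mul, abs_of_pos (by norm_num : (0 : ℝ) < 864),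
        abs_of_nonneg (by positivity : (0 : ℝ) ≤ (s : ℝ) ^ 6),
        abs_of_nonneg (by positivity : (0 : ℝ) ≤ (r : ℝ) ^ 6)] at h2
      have h3 : (s : ℝ) ^ 6 ≤ (r : ℝ) ^ 6 := pow_le_pow_left₀ hsR hsrR 6
      have h5 : (r : ℝ) ^ 6 * |(W.c₆ : ℝ)| ≤ (r : ℝ) ^ 6 * (864 * |(b : ℝ)|) := by
        rw [← h2]
        calc 864 * |(b : ℝ)| * (s : ℝ) ^ 6 ≤ 864 * |(b : ℝ)| * (r : ℝ) ^ 6 :=
              mul_le_mul_of_nonneg_left h3 (by positivity)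
          _ = _ := by ring
      exact le_of_mul_le_mul_left h5 (by positivity)
    set M : ℝ := max (|(a : ℝ)| ^ 3) ((b : ℝ) ^ 2) with hM
    have hM0 : 0 ≤ M := le_trans (by positivity) (le_max_left _ _)
    have g : max (|(W.c₄ : ℝ)| ^ 3) ((W.c₆ : ℝ) ^ 2) ≤ 746496 * M := by
      refine max_le ?_ ?_
      · calc |(W.c₄ : ℝ)| ^ 3 ≤ (48 * |(a : ℝ)|) ^ 3 := pow_le_pow_left₀ (abs_nonneg _) f4 3
          _ = 110592 * |(a : ℝ)| ^ 3 := by ring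
          _ ≤ 110592 * M := mul_le_mul_of_nonneg_left (le_max_left _ _) (by norm_num)
          _ ≤ _ := by linarith
      · calc (W.c₆ : ℝ) ^ 2 = |(W.c₆ : ℝ)| ^ 2 := (sq_abs _).symm
          _ ≤ (864 * |(b : ℝ)|) ^ 2 := pow_le_pow_left₀ (abs_nonneg _) f6 2
          _ = 746496 * (b : ℝ) ^ 2 := by rw [mul_pow, sq_abs]; norm_num
          _ ≤ 746496 * M := mul_le_mul_of_nonneg_left (le_max_right _ _) (by norm_num)
    have h2 : K * (condS a b : ℝ) ^ κ < 746496 * M :=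
      lt_of_le_of_lt (mul_le_mul_of_nonneg_left h1 hK.le) (lt_of_lt_of_le hbig g)
    show (condS a b : ℝ) ^ κ < 746496 / K * M
    rw [div_mul_eq_mul_div, lt_div_iff₀ hK]
    linarith
  · unfold back
    simp only
    rw [e4, e6, Int.mul_ediv_cancel_left _ (by positivity),
      Int.mul_ediv_cancel_left _ (by positivity)]

theorem excW_count (T : WeierstrassCurve ℤ → Prop) (U : ℤ → ℤ → Prop)
    (hTU : ∀ (W : WeierstrassCurve ℤ) (u : ℚ) (a b : ℤ), u ≠ 0 → (a : ℚ) = u ^ 4 * (27 * W.c₄ : ℤ) →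
      (b : ℚ) = u ^ 6 * (54 * W.c₆ : ℤ) → T W → U a b)
    (κ K θ : ℝ) (hκ : 6 ≤ κ) (hK : 0 < K)
    (h : ∃ C : ℝ, 0 < C ∧ ∀ X : ℕ, 1 ≤ X →
      (ExcU U κ (746496 / K) X).Finite ∧
      ((ExcU U κ (746496 / K) X).ncard : ℝ) ≤ C * (X : ℝ) ^ θ) :
    ∃ C : ℝ, 0 < C ∧ ∀ X : ℕ, 1 ≤ X →
      (ExcW T κ K X).Finite ∧ ((ExcW T κ K X).ncard : ℝ) ≤ C * (X : ℝ) ^ θ := by
  obtain ⟨C, hC, h⟩ := h
  refine ⟨49 * (C * 6 ^ θ), by positivity, fun X hX => ?_⟩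
  obtain ⟨hfin, hcard⟩ := h (6 * X) (by omega)
  have hsub := excW_sub T U hTU κ K hκ hK X
  have hfin1 : ((((range 7 ×ˢ range 7 : Finset (ℕ × ℕ)) : Set (ℕ × ℕ))) ×ˢ
      ExcU U κ (746496 / K) (6 * X)).Finite := (Finset.finite_toSet _).prod hfin
  have hfin2 := hfin1.image back
  refine ⟨hfin2.subset hsub, ?_⟩
  have c1 : (ExcW T κ K X).ncard ≤ 49 * (ExcU U κ (746496 / K) (6 * X)).ncard := by
    calc (ExcW T κ K X).ncard ≤ _ := Set.ncard_le_ncard hsub hfin2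
      _ ≤ _ := Set.ncard_image_le hfin1
      _ = _ := by
          rw [Set.ncard_prod, Set.ncard_coe_finset, card_product, card_range]
  calc ((ExcW T κ K X).ncard : ℝ) ≤ 49 * ((ExcU U κ (746496 / K) (6 * X)).ncard : ℝ) := by
        exact_mod_cast c1
    _ ≤ 49 * (C * ((6 * X : ℕ) : ℝ) ^ θ) := by linarith
    _ = 49 * (C * 6 ^ θ) * (X : ℝ) ^ θ := by
        push_cast
        rw [Real.mul_rpow (by norm_num) (Nat.cast_nonneg _)]
        ring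

/-- a rational point of order two -/
def TwoT (W : WeierstrassCurve ℤ) : Prop :=
  ∃ r : ℚ, 4 * r ^ 3 + W.b₂ * r ^ 2 + 2 * W.b₄ * r + W.b₆ = 0

theorem twoT_root (W : WeierstrassCurve ℤ) (u : ℚ) (a b : ℤ) (hu : u ≠ 0)
    (ha : (a : ℚ) = u ^ 4 * (27 * W.c₄ : ℤ)) (hb : (b : ℚ) = u ^ 6 * (54 * W.c₆ : ℤ))
    (hT : TwoT W) : Pool.Agent.H925R.Two.HasRoot a b := by
  obtain ⟨r, hr⟩ := hT
  refine ⟨u ^ 2 * (36 * r + 3 * W.b₂), ?_⟩
  have hc4 : ((W.c₄ : ℤ) : ℚ) = (W.b₂ : ℚ) ^ 2 - 24 * W.b₄ := by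
    unfold WeierstrassCurve.c₄
    push_cast
    ring
  have hc6 : ((W.c₆ : ℤ) : ℚ) = -(W.b₂ : ℚ) ^ 3 + 36 * W.b₂ * W.b₄ - 216 * W.b₆ := by
    unfold WeierstrassCurve.c₆
    push_cast
    ring
  rw [ha, hb]
  push_cast
  rw [hc4, hc6]
  linear_combination (11664 * u ^ 6) * hr

theorem two_main (κ K ε : ℝ) (hκ : 6 ≤ κ) (hK : 0 < K) (hε : 0 < ε) :
    ∃ C : ℝ, 0 < C ∧ ∀ X : ℕ, 1 ≤ X →
      (ExcW TwoT κ K X).Finite ∧
      ((ExcW TwoT κ K X).ncard : ℝ) ≤ C * (X : ℝ) ^ (min (1 / 2 + 9 / (4 * κ)) (6 / κ) + ε) := by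
  have hκ0 : 0 < κ := by linarith
  have hρ0 : 0 ≤ 3 / κ := by positivity
  have hρ : 3 / κ ≤ 1 / 2 := by
    rw [div_le_iff₀ hκ0]
    linarith
  have hK' : 0 < 746496 / K := by positivity
  rcases le_total (1 / 2 + 9 / (4 * κ)) (6 / κ) with hle | hle
  · rw [min_eq_left hle]
    refine excW_count TwoT Pool.Agent.H925R.Two.HasRoot twoT_root κ K _ hκ hK ?_
    have e : 1 / 2 + 9 / (4 * κ) = 2 * (1 / 4 + 3 / 8 * (3 / κ)) := by
      field_simp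
      ring
    rw [e]
    exact two_countM κ (1 / 4 + 3 / 8 * (3 / κ)) (3 / 8) (746496 / K) ε hκ hK' (by positivity)
      (by linarith) (by linarith) (by linarith) (bound_main _ _ hρ0 hρ) hε
  · rw [min_eq_right hle]
    refine excW_count TwoT Pool.Agent.H925R.Two.HasRoot twoT_root κ K _ hκ hK ?_
    have e : 6 / κ = 2 * (3 / κ) := by
      field_simp
      norm_num
    rw [e]
    exact two_countM κ (3 / κ) 1 (746496 / K) ε hκ hK' hρ0
      (by linarith) (by linarith) (by linarith) (bound_triv _ _ hρ0) hε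

end Pool.Agent.W270.TM
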