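import Pool.Agent.H328R2.ABC.Main

/-!
# Bookkeeping for counting theorems on triples with a term `V s^d`
-/

set_option autoImplicit false
set_option linter.unusedVariables false

namespace Pool.Agent.W270.TM

open Finset
open Pool.Agent.H328R2.ABC

/-- side `r` is `V` times a `d`-th power -/
def isXd (d V : ℕ) (r : Fin 3) (a b : ℕ) : Prop := ∃ s : ℕ, 0 < s ∧ side a b r = V * s ^ d

/-- the passage from a key lemma to a counting bound -/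
theorem role_abs (P : ℝ → ℕ × ℕ → Prop) (good : ℕ → ℕ × ℕ → Prop) (R : ℕ × ℕ → ℝ)
    (θ β ρ K ε : ℝ) (hθ : 0 ≤ θ) (hβ : 0 ≤ β) (hβ10 : β ≤ 10) (hρ : 0 ≤ ρ) (hβρ : β * ρ ≤ θ)
    (hε : 0 < ε)
    (hcount : ∃ C : ℝ, 0 < C ∧ ∀ V : ℕ, 0 < V → ∀ X : ℕ, 1 ≤ X → ∀ Q : ℝ, 1 ≤ Q →
      ∀ S : Finset (ℕ × ℕ), (∀ t ∈ S, Adm X t ∧ good V t ∧ P Q t) →
      (S.card : ℝ) ≤ C * (X : ℝ) ^ (ε / 2) * Q)
    (hmono : ∀ Q Q' : ℝ, Q ≤ Q' → ∀ t, P Q t → P Q' t)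
    (hR : ∀ t, 1 ≤ R t)
    (key : ∀ σ Λ : ℝ, 0 ≤ σ → 1 ≤ Λ → ∀ a b : ℕ, 0 < a → a ≤ b →
      Real.log 2 ≤ σ * Real.log ((a + b : ℕ) : ℝ) → K ≤ ((a + b : ℕ) : ℝ) ^ σ →
      R (a, b) * Λ ≤ K * ((a + b : ℕ) : ℝ) ^ ρ →
      P (((a + b : ℕ) : ℝ) ^ (θ + 10 * σ) * Λ ^ (-β)) (a, b)) :
    ∃ C : ℝ, 0 < C ∧ ∀ V : ℕ, 0 < V → ∀ X : ℕ, 1 ≤ X → ∀ Λ : ℝ, 1 ≤ Λ → ∀ S : Finset (ℕ × ℕ),
      (∀ t ∈ S, Adm X t ∧ good V t ∧ R t * Λ ≤ K * ((t.1 + t.2 : ℕ) : ℝ) ^ ρ) →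
      (S.card : ℝ) ≤ C * (X : ℝ) ^ (θ + ε) * Λ ^ (-β) := by
  classical
  set σ : ℝ := ε / 20 with hσdef
  have hσ : 0 < σ := by positivity
  obtain ⟨C, hC, hcount⟩ := hcount
  -- threshold
  have ev1 : ∀ᶠ n : ℕ in Filter.atTop, Real.log 2 ≤ σ * Real.log (n : ℝ) := by
    have : Filter.Tendsto (fun n : ℕ => σ * Real.log (n : ℝ)) Filter.atTop Filter.atTop :=
      (Real.tendsto_log_atTop.comp tendsto_natCast_atTop_atTop).const_mul_atTop hσ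
    exact this.eventually_ge_atTop _
  have ev2 : ∀ᶠ n : ℕ in Filter.atTop, max K 1 ≤ (n : ℝ) ^ σ := by
    have : Filter.Tendsto (fun n : ℕ => (n : ℝ) ^ σ) Filter.atTop Filter.atTop :=
      (tendsto_rpow_atTop hσ).comp tendsto_natCast_atTop_atTop
    exact this.eventually_ge_atTop _
  obtain ⟨N, hN⟩ := Filter.eventually_atTop.mp (ev1.and ev2)
  set L0 : ℝ := max K 1 * ((N + 1 : ℕ) : ℝ) ^ ρ with hL0
  have hm1 : (1 : ℝ) ≤ max K 1 := le_max_right _ _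
  have hN1 : (1 : ℝ) ≤ ((N + 1 : ℕ) : ℝ) := by
    push_cast
    have : (0 : ℝ) ≤ N := Nat.cast_nonneg _
    linarith
  have hL01 : 1 ≤ L0 := by
    rw [hL0]
    have : (1 : ℝ) ≤ ((N + 1 : ℕ) : ℝ) ^ ρ := Real.one_le_rpow hN1 hρ
    nlinarith
  refine ⟨C + (N : ℝ) ^ 2 * L0 ^ β, by positivity, ?_⟩
  intro V hV X hX Λ hΛ S hS
  have hX1 : (1 : ℝ) ≤ X := by exact_mod_cast hX
  have hX0 : (0 : ℝ) < X := by linarith
  have hΛ0 : 0 < Λ := by linarith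
  have hΛn : 0 < Λ ^ (-β) := by positivity
  have hinv : Λ ^ β * Λ ^ (-β) = 1 := by
    rw [← Real.rpow_add hΛ0, add_neg_cancel, Real.rpow_zero]
  -- sizes
  have hsize : ∀ t ∈ S, Λ ≤ max K 1 * ((t.1 + t.2 : ℕ) : ℝ) ^ ρ := by
    intro t ht
    obtain ⟨hadm, _, hr⟩ := hS t ht
    have h3 : Λ ≤ R t * Λ := by
      have := hR t
      nlinarith
    refine h3.trans (hr.trans ?_)
    gcongr
    exact le_max_left _ _
  set S1 := S.filter (fun t => t.1 + t.2 < N) with hS1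
  set S2 := S.filter (fun t => ¬ t.1 + t.2 < N) with hS2
  have hsplit : S.card = S1.card + S2.card := (card_filter_add_card_filter_not _).symm
  have hXe : (1 : ℝ) ≤ (X : ℝ) ^ (θ + ε) := Real.one_le_rpow hX1 (by linarith)
  have hb1 : (S1.card : ℝ) ≤ (N : ℝ) ^ 2 * L0 ^ β * Λ ^ (-β) := by
    rcases S1.eq_empty_or_nonempty with he | ⟨t, ht⟩
    · rw [he, card_empty, Nat.cast_zero]
      positivity
    have hsub : S1 ⊆ range N ×ˢ range N := by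
      intro t ht
      rw [hS1, mem_filter] at ht
      rw [mem_product, mem_range, mem_range]
      omega
    have h := card_le_card hsub
    rw [card_product, card_range] at h
    have h' : (S1.card : ℝ) ≤ ((N * N : ℕ) : ℝ) := by exact_mod_cast h
    push_cast at h'
    rw [hS1, mem_filter] at ht
    have hΛL : Λ ≤ L0 := by
      refine (hsize t ht.1).trans ?_
      rw [hL0]
      have : ((t.1 + t.2 : ℕ) : ℝ) ≤ ((N + 1 : ℕ) : ℝ) := by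
        have := ht.2
        exact_mod_cast (by omega : t.1 + t.2 ≤ N + 1)
      gcongr
    have h8 : 1 ≤ L0 ^ β * Λ ^ (-β) := by
      have h9 : Λ ^ β ≤ L0 ^ β := Real.rpow_le_rpow hΛ0.le hΛL hβ
      rw [← hinv]
      gcongr
    have hN2 : (0 : ℝ) ≤ (N : ℝ) ^ 2 := by positivity
    calc (S1.card : ℝ) ≤ (N : ℝ) ^ 2 := by nlinarith
      _ ≤ (N : ℝ) ^ 2 * (L0 ^ β * Λ ^ (-β)) := le_mul_of_one_le_right hN2 h8
      _ = _ := by ring
  have hb2 : (S2.card : ℝ) ≤ C * (X : ℝ) ^ (θ + ε) * Λ ^ (-β) := by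
    rcases S2.eq_empty_or_nonempty with he | hne
    · rw [he, card_empty, Nat.cast_zero]
      positivity
    have hθ0 : (0 : ℝ) ≤ θ + 10 * σ := by positivity
    have hmain : ∀ t ∈ S2, 1 ≤ ((t.1 + t.2 : ℕ) : ℝ) ^ (θ + 10 * σ) * Λ ^ (-β) ∧
        ((t.1 + t.2 : ℕ) : ℝ) ^ (θ + 10 * σ) * Λ ^ (-β) ≤
          (X : ℝ) ^ (θ + 10 * σ) * Λ ^ (-β) ∧
        P (((t.1 + t.2 : ℕ) : ℝ) ^ (θ + 10 * σ) * Λ ^ (-β)) t := by
      intro t ht
      rw [hS2, mem_filter] at ht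
      obtain ⟨hadm, hx, hr⟩ := hS t ht.1
      have hn : N ≤ t.1 + t.2 := by omega
      obtain ⟨e1, e2⟩ := hN _ hn
      have hsz := hsize t ht.1
      obtain ⟨ha, hab, hcop, hle⟩ := hadm
      set c : ℝ := ((t.1 + t.2 : ℕ) : ℝ) with hc
      have hc1 : (1 : ℝ) ≤ c := by
        have : 1 ≤ t.1 + t.2 := by omega
        rw [hc]
        exact_mod_cast this
      have hc0 : 0 < c := by linarith
      have hcX : c ≤ X := by rw [hc]; exact_mod_cast hle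
      refine ⟨?_, ?_, ?_⟩
      · have h1 : Λ ≤ c ^ (σ + ρ) := by
          refine hsz.trans ?_
          rw [Real.rpow_add hc0]
          gcongr
        have h3 : Λ ^ β ≤ c ^ (θ + 10 * σ) := by
          calc Λ ^ β ≤ (c ^ (σ + ρ)) ^ β :=
                Real.rpow_le_rpow hΛ0.le h1 hβ
            _ = c ^ ((σ + ρ) * β) := by rw [← Real.rpow_mul hc0.le]
            _ ≤ _ := Real.rpow_le_rpow_of_exponent_le hc1 (by nlinarith)
        rw [← hinv]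
        gcongr
      · gcongr
      · exact key σ Λ hσ.le hΛ t.1 t.2 ha hab e1 ((le_max_left _ _).trans e2) hr
    obtain ⟨t0, ht0⟩ := hne
    obtain ⟨g1, g2, _⟩ := hmain t0 ht0
    have h := hcount V hV X hX ((X : ℝ) ^ (θ + 10 * σ) * Λ ^ (-β)) (g1.trans g2) S2
      (fun t ht => by
        have hm := hmain t ht
        rw [hS2, mem_filter] at ht
        obtain ⟨hadm, hx, hr⟩ := hS t ht.1
        exact ⟨hadm, hx, hmono _ _ hm.2.1 _ hm.2.2⟩)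
    have hexp : (X : ℝ) ^ (ε / 2) * (X : ℝ) ^ (θ + 10 * σ) = (X : ℝ) ^ (θ + ε) := by
      rw [← Real.rpow_add hX0]
      congr 1
      rw [hσdef]
      ring
    calc (S2.card : ℝ) ≤ _ := h
      _ = C * ((X : ℝ) ^ (ε / 2) * (X : ℝ) ^ (θ + 10 * σ)) * Λ ^ (-β) := by ring
      _ = _ := by rw [hexp]
  rw [hsplit]
  push_cast
  have hA : 0 ≤ (N : ℝ) ^ 2 * L0 ^ β * Λ ^ (-β) := by positivity
  calc (S1.card : ℝ) + S2.card ≤ (N : ℝ) ^ 2 * L0 ^ β * Λ ^ (-β) +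
        C * (X : ℝ) ^ (θ + ε) * Λ ^ (-β) := add_le_add hb1 hb2
    _ ≤ ((N : ℝ) ^ 2 * L0 ^ β * Λ ^ (-β)) * (X : ℝ) ^ (θ + ε) +
        C * (X : ℝ) ^ (θ + ε) * Λ ^ (-β) := by
      have := le_mul_of_one_le_right hA hXe
      linarith
    _ = _ := by ring

/-- the condition on the triple `(x, (y, z))` -/
def TC (d : ℕ) (K ρ : ℝ) (V N : ℕ) (Λ : ℝ) (t : ℕ × (ℕ × ℕ)) : Prop :=
  0 < t.1 ∧ 0 < t.2.1 ∧ 0 < t.2.2 ∧ Nat.Coprime t.2.1 t.2.2 ∧
    (t.1 + t.2.1 = t.2.2 ∨ t.1 + t.2.2 = t.2.1 ∨ t.2.1 + t.2.2 = t.1) ∧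
    t.1 ≤ N ∧ t.2.1 ≤ N ∧ t.2.2 ≤ N ∧ (∃ s : ℕ, 0 < s ∧ t.1 = V * s ^ d) ∧
    (rad t.2.1 : ℝ) * rad t.2.2 * Λ ≤ K * ((max t.1 (max t.2.1 t.2.2) : ℕ) : ℝ) ^ ρ

/-- the bound for all the roles gives the bound for the triples -/
theorem triples_abs (d : ℕ) (K ρ θ β : ℝ) (hρ : 0 ≤ ρ)
    (H : ∀ k y z : Fin 3, k ≠ y → k ≠ z → y ≠ z → ∃ C : ℝ, 0 < C ∧ ∀ V : ℕ, 0 < V → ∀ X : ℕ,
      1 ≤ X → ∀ Λ : ℝ, 1 ≤ Λ → ∀ S : Finset (ℕ × ℕ),
      (∀ t ∈ S, Adm X t ∧ isXd d V k t.1 t.2 ∧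
        ((rad (side t.1 t.2 y) : ℝ) * rad (side t.1 t.2 z)) * Λ ≤
          K * ((t.1 + t.2 : ℕ) : ℝ) ^ ρ) →
      (S.card : ℝ) ≤ C * (X : ℝ) ^ θ * Λ ^ (-β)) :
    ∃ C : ℝ, 0 < C ∧ ∀ V : ℕ, 0 < V → ∀ N : ℕ, 1 ≤ N → ∀ Λ : ℝ, 1 ≤ Λ →
      ∀ S : Finset (ℕ × (ℕ × ℕ)), (∀ t ∈ S, TC d K ρ V N Λ t) →
      (S.card : ℝ) ≤ C * (N : ℝ) ^ θ * Λ ^ (-β) := by
  classical
  set roles : Finset (Fin 3 × Fin 3 × Fin 3) :=
    univ.filter (fun x => x.1 ≠ x.2.1 ∧ x.1 ≠ x.2.2 ∧ x.2.1 ≠ x.2.2) with hroles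
  have hcore : ∀ x ∈ roles, ∃ C : ℝ, 0 < C ∧ ∀ V : ℕ, 0 < V → ∀ X : ℕ, 1 ≤ X → ∀ Λ : ℝ, 1 ≤ Λ →
      ∀ S : Finset (ℕ × ℕ),
      (∀ t ∈ S, Adm X t ∧ isXd d V x.1 t.1 t.2 ∧
        ((rad (side t.1 t.2 x.2.1) : ℝ) * rad (side t.1 t.2 x.2.2)) * Λ ≤
          K * ((t.1 + t.2 : ℕ) : ℝ) ^ ρ) →
      (S.card : ℝ) ≤ C * (X : ℝ) ^ θ * Λ ^ (-β) := by
    intro x hx
    rw [hroles, mem_filter] at hx
    exact H x.1 x.2.1 x.2.2 hx.2.1 hx.2.2.1 hx.2.2.2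
  choose! C hC h using hcore
  refine ⟨∑ x ∈ roles, C x + 1, by
    have := sum_nonneg (fun x hx => (hC x hx).le)
    linarith, ?_⟩
  intro V hV N hN Λ hΛ S hS
  have hΛ0 : 0 < Λ := by linarith
  let T : Fin 3 × Fin 3 × Fin 3 → Finset (ℕ × ℕ) := fun x =>
    (range (N + 1) ×ˢ range (N + 1)).filter (fun t => Adm N t ∧ isXd d V x.1 t.1 t.2 ∧
        ((rad (side t.1 t.2 x.2.1) : ℝ) * rad (side t.1 t.2 x.2.2)) * Λ ≤
          K * ((t.1 + t.2 : ℕ) : ℝ) ^ ρ)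
  let g : Fin 3 × Fin 3 × Fin 3 → ℕ × ℕ → ℕ × (ℕ × ℕ) := fun x p =>
    (side p.1 p.2 x.1, (side p.1 p.2 x.2.1, side p.1 p.2 x.2.2))
  have hsub : S ⊆ roles.biUnion (fun x => (T x).image (g x)) := by
    rintro ⟨x, y, z⟩ ht
    obtain ⟨hx0, hy0, hz0, hcop, hrel, hxN, hyN, hzN, hs, hr⟩ := hS _ ht
    simp only at hx0 hy0 hz0 hcop hrel hxN hyN hzN hs hr
    rw [mem_biUnion]
    -- a general step
    have step : ∀ (w : Fin 3 × Fin 3 × Fin 3) (a b : ℕ), w ∈ roles → 0 < a → a ≤ b →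
        Nat.Coprime a b → a + b ≤ N → max x (max y z) = a + b → side a b w.1 = x →
        side a b w.2.1 = y →
        side a b w.2.2 = z → ∃ w ∈ roles, (x, y, z) ∈ (T w).image (g w) := by
      intro w a b hw ha hab hc hN' hmax e1 e2 e3
      refine ⟨w, hw, ?_⟩
      rw [mem_image]
      refine ⟨(a, b), ?_, ?_⟩
      · simp only [T]
        rw [mem_filter, mem_product, mem_range, mem_range]
        refine ⟨⟨by simp only; omega, by simp only; omega⟩, ⟨ha, hab, hc, hN'⟩, ?_, ?_⟩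
        · unfold isXd
          simp only
          rw [e1]
          exact hs
        · simp only
          rw [e2, e3, ← hmax]
          exact hr
      · simp only [g]
        rw [e1, e2, e3]
    rcases hrel with h1 | h1 | h1
    · -- z largest
      have hcxy : Nat.Coprime x y := by
        rw [← h1] at hcop
        have : Nat.Coprime y (x + y) := hcop
        simpa [Nat.coprime_comm] using this
      rcases le_total x y with h2 | h2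
      · exact step (0, 1, 2) x y (by rw [hroles, mem_filter]; exact ⟨mem_univ _, by decide⟩) hx0 h2
          hcxy (by omega) (by omega) rfl rfl h1
      · exact step (1, 0, 2) y x (by rw [hroles, mem_filter]; exact ⟨mem_univ _, by decide⟩) hy0 h2
          hcxy.symm (by omega) (by omega) rfl rfl (by show y + x = z; omega)
    · -- y largest
      have hcxz : Nat.Coprime x z := by
        rw [← h1] at hcop
        have : Nat.Coprime (x + z) z := hcop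
        simpa using this
      rcases le_total x z with h2 | h2
      · exact step (0, 2, 1) x z (by rw [hroles, mem_filter]; exact ⟨mem_univ _, by decide⟩) hx0 h2
          hcxz (by omega) (by omega) rfl h1 rfl
      · exact step (1, 2, 0) z x (by rw [hroles, mem_filter]; exact ⟨mem_univ _, by decide⟩) hz0 h2
          hcxz.symm (by omega) (by omega) rfl (by show z + x = y; omega) rfl
    · -- x largest
      rcases le_total y z with h2 | h2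
      · exact step (2, 0, 1) y z (by rw [hroles, mem_filter]; exact ⟨mem_univ _, by decide⟩) hy0 h2
          hcop (by omega) (by omega) h1 rfl rfl
      · exact step (2, 1, 0) z y (by rw [hroles, mem_filter]; exact ⟨mem_univ _, by decide⟩) hz0 h2
          hcop.symm (by omega) (by omega) (by show z + y = x; omega) rfl rfl
  have h1 : (S.card : ℝ) ≤ ∑ x ∈ roles, ((T x).card : ℝ) := by
    have := (card_le_card hsub).trans (card_biUnion_le.trans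
      (sum_le_sum (fun x _ => card_image_le)))
    exact_mod_cast this
  have h2 : ∑ x ∈ roles, ((T x).card : ℝ) ≤
      ∑ x ∈ roles, C x * ((N : ℝ) ^ θ * Λ ^ (-β)) := by
    refine sum_le_sum (fun x hx => ?_)
    rw [← mul_assoc]
    refine h x hx V hV N hN Λ hΛ (T x) (fun t ht => ?_)
    simp only [T] at ht
    rw [mem_filter] at ht
    exact ht.2
  have h3 : 0 ≤ (N : ℝ) ^ θ * Λ ^ (-β) := by positivity
  rw [← sum_mul] at h2
  calc (S.card : ℝ) ≤ _ := h1.trans h2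
    _ ≤ (∑ x ∈ roles, C x + 1) * ((N : ℝ) ^ θ * Λ ^ (-β)) := by nlinarith
    _ = _ := by ring

end Pool.Agent.W270.TM
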