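import Pool.Agent.H925R.Two.Core
import Pool.Agent.W270.TM.LPM

/-!
# Triples `x + y = z` (any signs) with `x = V s²` and small `rad y · rad z`

The number of coprime triples with terms at most `X`, one of them `V s²`, the other two `y`, `z` with
`rad y · rad z · Λ ≤ K c^ρ` (`c` the largest term, `0 < ρ ≤ 1/2`), is
`O(X^(1/4 + 3ρ/8 + ε) Λ^(-3/8))`, uniformly in `V` and `Λ`.
-/

set_option autoImplicit false
set_option linter.unusedVariables false

namespace Pool.Agent.W270.TM

open Finset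
open Pool.Agent.H328R2.ABC
open Pool.Agent.H925R.Two

theorem lp_twoM (w : Fin 3 → ℕ → ℝ) (s : Fin 3 → ℝ) (k y z : Fin 3) (hky : k ≠ y) (hkz : k ≠ z)
    (hyz : y ≠ z) (L σ θ : ℝ) (hL : 0 ≤ L) (hσ : 0 ≤ σ) (hθ : θ = 7 / 16 + 10 * σ - 3 / 8 * L)
    (hw : ∀ r, ∀ i, 0 ≤ w r i) (hs : ∀ r, 0 ≤ s r)
    (h0 : RW w All y + RW w All z + L ≤ 1 / 2 + σ)
    (hz : ∀ r, SZ w s All r ≤ 1) (hz1 : 1 - σ ≤ SZ w s All 1) (hz2 : 1 - σ ≤ SZ w s All 2)
    (hf : ∀ r, 5 * w r 5 ≤ s r)
    (hT : θ < RW w All y + RW w All z)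
    (hC1 : θ < RW w (All \ {3}) y + RW w All z + w y 3 / 2)
    (hC2 : θ < RW w (All \ {3}) z + RW w All y + w z 3 / 2)
    (H : ∀ (r p : Fin 3) (J I : Finset ℕ), isMod r k p → ok J 2 → I ⊆ All →
      θ < RW w (All \ J) p + RW w I r ∨
      θ < RW w (All \ J) p + RW w I r + (SZ w s All k + SZ w s J p) / 2 - SZ w s I r +
        (if r = 0 then SZ w s All 0 - 1 else 0)) : False := by
  have k2 : ok ({2} : Finset ℕ) 2 := by
    refine ⟨by decide, Or.inr ?_⟩
    decide
  have k4 : ok ({4} : Finset ℕ) 2 := by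
    refine ⟨by decide, Or.inr ?_⟩
    decide
  have k24 : ok ({2, 4} : Finset ℕ) 2 := by
    refine ⟨by decide, Or.inr ?_⟩
    decide
  have k0 : ok (∅ : Finset ℕ) 2 := by
    refine ⟨by decide, Or.inr ?_⟩
    decide
  have s245 : ({2, 4, 5} : Finset ℕ) ⊆ All := by decide
  have s45 : ({4, 5} : Finset ℕ) ⊆ All := by decide
  obtain ⟨my, mz⟩ := role_mod k y z hky hkz hyz
  have hzy := hz y
  have hzz := hz z
  have hzk := hz k
  simp only [cm4, rw27, rw31, sz31] at h0 hT hC1 hC2
  have hzr : ∀ r : Fin 3, r ≠ 0 → 1 - σ ≤ SZ w s All r := by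
    intro r hr
    fin_cases r
    · exact absurd rfl hr
    · exact hz1
    · exact hz2
  -- the case of a smallest term `y`, any names
  have small : ∀ y z : Fin 3, k ≠ y → k ≠ z → y ≠ z → y = 0 →
      ((k = y + 1 ∧ z = y + 2) ∨ (k = y + 2 ∧ z = y + 1)) →
      ((k = z + 1 ∧ y = z + 2) ∨ (k = z + 2 ∧ y = z + 1)) →
      (w y 1 + w y 2 + w y 3 + w y 4 + w y 5) + (w z 1 + w z 2 + w z 3 + w z 4 + w z 5) + L ≤
        1 / 2 + σ →
      θ < (w y 1 + w y 2 + w y 3 + w y 4 + w y 5) + (w z 1 + w z 2 + w z 3 + w z 4 + w z 5) →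
      θ < (w y 1 + w y 2 + w y 4 + w y 5) + (w z 1 + w z 2 + w z 3 + w z 4 + w z 5) + w y 3 / 2 →
      θ < (w z 1 + w z 2 + w z 4 + w z 5) + (w y 1 + w y 2 + w y 3 + w y 4 + w y 5) + w z 3 / 2 →
      False := by
    intro y z hky hkz hyz hy0 my mz g0 gT gC1 gC2
    have hk0 : k ≠ 0 := fun h => hky (h.trans hy0.symm)
    have hz0 : z ≠ 0 := fun h => hyz (hy0.trans h.symm)
    have hzy := hz y
    have hzz := hz z
    have n1 := H y z {2} {4, 5} my k2 s45
    have n2 := H y z {4} {4, 5} my k4 s45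
    have n3 := H z y ∅ {4, 5} mz k0 s45
    have n4 := H z y {2, 4} {4, 5} mz k24 s45
    rw [if_pos hy0] at n1 n2
    rw [if_neg hz0] at n3 n4
    rw [← hy0] at n1 n2
    have hkl := hzr k hk0
    have hzl := hzr z hz0
    simp only [cmE, cm10, cm8, cm2, rw21, rw31, rw23, rw24, rw29, sz10, sz8, sz2, sz0, sz24]
      at n1 n2 n3 n4
    rw [sz31] at hzl hzy hzz
    refine lpy (w y 1) (w y 2) (w y 3) (w y 4) (w y 5) (s y) (w z 1) (w z 2) (w z 3) (w z 4)
      (w z 5) (s z) (SZ w s All k) L σ θ (hw _ _) (hw _ _) (hw _ _) (hw _ _) (hw _ _) (hf _)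
      (hw _ _) (hw _ _) (hw _ _) (hw _ _) (hw _ _) (hf _) hL hσ hθ (by linarith) (by linarith)
      hzk (by linarith) (by linarith) g0 gT gC1 gC2 ?_ ?_ ?_ ?_
    · rcases n1 with h | h
      · left; linarith
      · right; rw [sz31 w s y] at h; linarith
    · rcases n2 with h | h
      · left; linarith
      · right; rw [sz31 w s y] at h; linarith
    · rcases n3 with h | h
      · left; linarith
      · right; linarith
    · rcases n4 with h | h
      · left; linarith
      · right; linarith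
  rcases role_or k y z hky hkz hyz with hk0 | hy0 | hz0
  · -- x smallest
    have hy0 : y ≠ 0 := fun h => hky (hk0.trans h.symm)
    have hz0 : z ≠ 0 := fun h => hkz (hk0.trans h.symm)
    have n1 := H z y {4} {2, 4, 5} mz k4 s245
    have n2 := H y z {2} {4, 5} my k2 s45
    have n3 := H y z {4} {4, 5} my k4 s45
    have n4 := H z y {2} {4, 5} mz k2 s45
    rw [if_neg hy0] at n2 n3
    rw [if_neg hz0] at n1 n4
    have hyl := hzr y hy0
    have hzl := hzr z hz0
    simp only [cm8, cm2, rw26, rw23, rw24, rw29, sz8, sz2, sz24, sz26] at n1 n2 n3 n4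
    rw [sz31] at hyl hzl hzy hzz
    refine lpx (w y 1) (w y 2) (w y 3) (w y 4) (w y 5) (s y) (w z 1) (w z 2) (w z 3) (w z 4)
      (w z 5) (s z) (SZ w s All k) L σ θ (hw _ _) (hw _ _) (hw _ _) (hw _ _) (hw _ _) (hf _)
      (hw _ _) (hw _ _) (hw _ _) (hw _ _) (hw _ _) (hf _) hL hσ hθ (by linarith) (by linarith)
      hzk (by linarith) (by linarith) (by linarith) (by linarith) (by linarith) (by linarith)
      ?_ ?_ ?_ ?_
    · rcases n1 with h | h
      · left; linarith
      · right; linarith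
    · rcases n2 with h | h
      · left; linarith
      · right; linarith
    · rcases n3 with h | h
      · left; linarith
      · right; linarith
    · rcases n4 with h | h
      · left; linarith
      · right; linarith
  · exact small y z hky hkz hyz hy0 my mz (by linarith) (by linarith) (by linarith) (by linarith)
  · exact small z y hkz hky hyz.symm hz0 mz my (by linarith) (by linarith) (by linarith)
      (by linarith)

theorem key2M (k y z : Fin 3) (hky : k ≠ y) (hkz : k ≠ z) (hyz : y ≠ z) (ρ σ K Λ : ℝ)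
    (hρ : ρ ≤ 1 / 2) (hσ : 0 ≤ σ)
    (hΛ : 1 ≤ Λ) (a b : ℕ) (ha : 0 < a) (hab : a ≤ b)
    (hlog : Real.log 2 ≤ σ * Real.log ((a + b : ℕ) : ℝ))
    (hK : K ≤ ((a + b : ℕ) : ℝ) ^ σ)
    (hrad : (rad (side a b y) : ℝ) * rad (side a b z) * Λ ≤ K * ((a + b : ℕ) : ℝ) ^ ρ) :
    anyCond2 k (((a + b : ℕ) : ℝ) ^ (1 / 4 + 3 / 8 * ρ + 10 * σ) * Λ ^ (-(3 / 8) : ℝ)) a b := by
  by_contra hcon
  unfold anyCond2 at hcon
  push Not at hcon
  obtain ⟨hT, hC, hM⟩ := hcon
  have hb : 0 < b := lt_of_lt_of_le ha hab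
  have hc2 : 2 ≤ a + b := by omega
  set c : ℝ := ((a + b : ℕ) : ℝ) with hcdef
  have hc2' : (2 : ℝ) ≤ c := by rw [hcdef]; exact_mod_cast hc2
  have hc0 : 0 < c := by linarith
  have hl : 0 < Real.log c := Real.log_pos (by linarith)
  set l := Real.log c with hldef
  have hsp := fun r => side_pos ha hb r
  have hspr : ∀ r, (0 : ℝ) < (side a b r : ℝ) := fun r => by exact_mod_cast hsp r
  have hrp : ∀ S r, (0 : ℝ) < rpart S (side a b r) := fun S r => by
    exact_mod_cast rpart_pos S _
  have hpp : ∀ S r, (0 : ℝ) < part S (side a b r) := fun S r => by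
    exact_mod_cast part_pos S _
  have hradp : ∀ r, (0 : ℝ) < rad (side a b r) := fun r => by exact_mod_cast rad_pos _
  have hradRW : ∀ r, RW (wt a b) All r = Real.log (rad (side a b r)) / l := fun r => by
    rw [RW_wt a b (Subset.refl _), rad_eq_rpart_All (hsp r).ne']
  have hszAll : ∀ r, SZ (wt a b) (st a b) All r = Real.log (side a b r : ℝ) / l := fun r => by
    rw [SZ_wt a b (Subset.refl _), part_All (hsp r).ne']
  have hΛ0 : 0 < Λ := by linarith
  set Lam : ℝ := Real.log Λ / l + (1 / 2 - ρ) with hLam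
  set θ : ℝ := 7 / 16 + 10 * σ - 3 / 8 * Lam with hθ
  set Q : ℝ := c ^ (1 / 4 + 3 / 8 * ρ + 10 * σ) * Λ ^ (-(3 / 8) : ℝ) with hQdef
  have hQ0 : 0 < Q := by positivity
  have hlogQ : Real.log Q = θ * l := by
    rw [hQdef, Real.log_mul (by positivity) (by positivity), Real.log_rpow hc0,
      Real.log_rpow hΛ0, hθ, hLam]
    have := hl.ne'
    field_simp
    ring
  refine lp_twoM (wt a b) (st a b) k y z hky hkz hyz Lam σ θ ?_ hσ rfl ?_ ?_ ?_ ?_ ?_ ?_ ?_ ?_ ?_ ?_
    ?_
  · exact add_nonneg (div_nonneg (Real.log_nonneg hΛ) hl.le) (by linarith)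
  · intro r i
    exact div_nonneg (Real.log_nonneg (by exact_mod_cast rpart_pos {i} (side a b r))) hl.le
  · intro r
    exact div_nonneg (Real.log_nonneg (by exact_mod_cast part_pos {5} (side a b r))) hl.le
  · rw [hradRW, hradRW]
    have h1 : (rad (side a b y) : ℝ) * rad (side a b z) * Λ ≤ c ^ σ * c ^ ρ := by
      refine hrad.trans ?_
      gcongr
    have h2 := Real.log_le_log (mul_pos (mul_pos (hradp y) (hradp z)) hΛ0) h1
    rw [Real.log_mul (mul_pos (hradp y) (hradp z)).ne' hΛ0.ne',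
      Real.log_mul (hradp y).ne' (hradp z).ne',
      Real.log_mul (by positivity) (by positivity), Real.log_rpow hc0, Real.log_rpow hc0] at h2
    have e1 : Real.log (rad (side a b y)) / l + Real.log (rad (side a b z)) / l + Lam =
        (Real.log (rad (side a b y)) + Real.log (rad (side a b z)) + Real.log Λ) / l +
          (1 / 2 - ρ) := by
      rw [hLam]; ring
    have e2 : 1 / 2 + σ = (σ * l + ρ * l) / l + (1 / 2 - ρ) := by
      field_simp
      ring
    rw [e1, e2]
    have := div_le_div_of_nonneg_right h2 hl.le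
    linarith
  · intro r
    rw [hszAll, div_le_one hl]
    exact Real.log_le_log (by exact_mod_cast hsp r) (Nat.cast_le.mpr (side_le r))
  · rw [hszAll, le_div_iff₀ hl]
    have h1 : c / 2 ≤ (side a b 1 : ℝ) := by
      have : (a : ℝ) ≤ b := by exact_mod_cast hab
      show c / 2 ≤ (b : ℝ)
      rw [hcdef]; push_cast; linarith
    have h2 := Real.log_le_log (by linarith : (0 : ℝ) < c / 2) h1
    rw [Real.log_div hc0.ne' (by norm_num)] at h2
    nlinarith
  · rw [hszAll]
    have h1 : (side a b 2 : ℝ) = c := rfl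
    rw [h1, div_self hl.ne']
    linarith
  · intro r
    have h1 : (rpart {5} (side a b r) : ℝ) ^ 5 ≤ part {5} (side a b r) := by
      exact_mod_cast rpart_five (side a b r)
    have h2 := Real.log_le_log (by positivity [hrp {5} r] : (0 : ℝ) < _) h1
    rw [Real.log_pow] at h2
    have h3 : wt a b r 5 = Real.log (rpart {5} (side a b r)) / l := rfl
    have h4 : st a b r = Real.log (part {5} (side a b r)) / l := rfl
    rw [h3, h4, ← mul_div_assoc]
    exact div_le_div_of_nonneg_right (by exact_mod_cast h2) hl.le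
  · unfold condT at hT
    push Not at hT
    have h2 := Real.log_lt_log hQ0 hT
    rw [hlogQ, Nat.cast_mul, Real.log_mul (hradp _).ne' (hradp _).ne'] at h2
    rw [hradRW, hradRW, ← add_div, lt_div_iff₀ hl]
    have hperm : ∀ k y z : Fin 3, k ≠ y → k ≠ z → y ≠ z →
      (k + 1 = y ∧ k + 2 = z) ∨ (k + 1 = z ∧ k + 2 = y) := by decide
    rcases hperm k y z hky hkz hyz with ⟨f1, f2⟩ | ⟨f1, f2⟩
    · rw [f1, f2] at h2
      exact h2
    · rw [f1, f2] at h2
      linarith
  · have h := hC y z hky hkz hyz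
    unfold condC at h
    push Not at h
    have h4 := Real.log_lt_log hQ0 h
    have hzp : (0 : ℝ) < (rpart {3} (side a b y) : ℝ) ^ ((1 : ℝ) / 2) :=
      Real.rpow_pos_of_pos (hrp _ _) _
    rw [hlogQ, Nat.cast_mul,
      Real.log_mul (mul_pos (hrp _ _) (hradp _)).ne' hzp.ne',
      Real.log_mul (hrp _ _).ne' (hradp _).ne', Real.log_rpow (hrp _ _)] at h4
    rw [RW_wt a b sdiff_subset, hradRW]
    have h5 : wt a b y 3 = Real.log (rpart {3} (side a b y)) / l := rfl
    rw [h5, ← add_div, div_right_comm, ← add_div, lt_div_iff₀ hl]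
    linarith
  · have h := hC z y hkz hky hyz.symm
    unfold condC at h
    push Not at h
    have h4 := Real.log_lt_log hQ0 h
    have hzp : (0 : ℝ) < (rpart {3} (side a b z) : ℝ) ^ ((1 : ℝ) / 2) :=
      Real.rpow_pos_of_pos (hrp _ _) _
    rw [hlogQ, Nat.cast_mul,
      Real.log_mul (mul_pos (hrp _ _) (hradp _)).ne' hzp.ne',
      Real.log_mul (hrp _ _).ne' (hradp _).ne', Real.log_rpow (hrp _ _)] at h4
    rw [RW_wt a b sdiff_subset, hradRW]
    have h5 : wt a b z 3 = Real.log (rpart {3} (side a b z)) / l := rfl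
    rw [h5, ← add_div, div_right_comm, ← add_div, lt_div_iff₀ hl]
    linarith
  · intro r p J I hm hJ hI
    have h := hM r p J I hm hJ hI
    unfold Pool.Agent.H925R.Two.condM at h
    rw [not_and_or, not_le, not_le] at h
    have hPM : Real.log (PM J I a b r p : ℝ) =
        Real.log (rpart (All \ J) (side a b p)) + Real.log (rpart I (side a b r)) := by
      unfold PM
      rw [Nat.cast_mul, Real.log_mul (hrp _ _).ne' (hrp _ _).ne']
    have hPMpos : (0 : ℝ) < (PM J I a b r p : ℝ) := by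
      unfold PM
      push_cast
      exact mul_pos (hrp _ _) (hrp _ _)
    rcases h with h | h
    · left
      have h2 := Real.log_lt_log hQ0 h
      rw [hlogQ, hPM] at h2
      rw [RW_wt a b sdiff_subset, RW_wt a b hI, ← add_div, lt_div_iff₀ hl]
      exact h2
    · right
      have hpp2 : (0 : ℝ) < ((side a b k * part J (side a b p) : ℕ) : ℝ) := by
        push_cast
        exact mul_pos (hspr _) (hpp _ _)
      have hkap : 0 < kap a b r := by
        unfold kap
        split_ifs
        · have : (0 : ℝ) < a := by exact_mod_cast ha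
          positivity
        · norm_num
      have h2 := Real.log_lt_log (mul_pos hQ0 (hpp _ _)) h
      rw [Real.log_mul hQ0.ne' (hpp _ _).ne', hlogQ,
        Real.log_mul (mul_pos hPMpos (Real.rpow_pos_of_pos hpp2 _)).ne' hkap.ne',
        Real.log_mul hPMpos.ne' (Real.rpow_pos_of_pos hpp2 _).ne',
        Real.log_rpow hpp2, Nat.cast_mul, Real.log_mul (hspr _).ne' (hpp _ _).ne', hPM] at h2
      have hlk : Real.log (kap a b r) / l = (if r = 0 then SZ (wt a b) (st a b) All 0 - 1 else 0) := by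
        unfold kap
        split_ifs with h0
        · rw [Real.log_div (by exact_mod_cast ha.ne') (by positivity), hszAll]
          have h1 : (side a b 0 : ℝ) = a := rfl
          rw [h1, sub_div]
          congr 1
          exact div_self hl.ne'
        · simp
      rw [RW_wt a b sdiff_subset, RW_wt a b hI, hszAll, SZ_wt a b hJ.1, SZ_wt a b hI, ← hlk]
      rw [← add_div, ← add_div, div_right_comm, ← add_div, ← sub_div, ← add_div, lt_div_iff₀ hl]
      linarith

end Pool.Agent.W270.TM
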