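import Pool.Agent.H925R.Two.Main
import Pool.Agent.W270.TM.KeyM
import Pool.Agent.W270.TM.Abs

/-!
# The two counting theorems for triples with a term `V s²`
-/

set_option autoImplicit false
set_option linter.unusedVariables false

namespace Pool.Agent.W270.TM

open Finset
open Pool.Agent.H328R2.ABC
open Pool.Agent.H925R.Two

theorem one_le_radrad (y z : Fin 3) (t : ℕ × ℕ) :
    (1 : ℝ) ≤ (rad (side t.1 t.2 y) : ℝ) * rad (side t.1 t.2 z) := by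
  have h1 : (1 : ℝ) ≤ rad (side t.1 t.2 y) := by exact_mod_cast rad_pos _
  have h2 : (1 : ℝ) ≤ rad (side t.1 t.2 z) := by exact_mod_cast rad_pos _
  nlinarith

/-- nontrivial bound -/
theorem main_two (ρ K ε : ℝ) (hρ0 : 0 ≤ ρ) (hρ : ρ ≤ 1 / 2) (hε : 0 < ε) :
    ∃ C : ℝ, 0 < C ∧ ∀ V : ℕ, 0 < V → ∀ N : ℕ, 1 ≤ N → ∀ Λ : ℝ, 1 ≤ Λ →
      ∀ S : Finset (ℕ × (ℕ × ℕ)), (∀ t ∈ S, TC 2 K ρ V N Λ t) →
      (S.card : ℝ) ≤ C * (N : ℝ) ^ ((1 / 4 + 3 / 8 * ρ) + ε) * Λ ^ (-(3 / 8) : ℝ) := by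
  refine triples_abs 2 K ρ ((1 / 4 + 3 / 8 * ρ) + ε) (3 / 8) hρ0 ?_
  intro k y z hky hkz hyz
  refine role_abs (fun Q t => anyCond2 k Q t.1 t.2) (fun V t => isXd 2 V k t.1 t.2)
    (fun t => (rad (side t.1 t.2 y) : ℝ) * rad (side t.1 t.2 z)) (1 / 4 + 3 / 8 * ρ) (3 / 8) ρ K ε
    (by positivity) (by norm_num) (by norm_num) hρ0 (by linarith) hε ?_ ?_ ?_ ?_
  · exact count_any2 k (ε / 2) (by positivity)
  · intro Q Q' hQ t h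
    exact anyCond2_mono k hQ h
  · intro t
    exact one_le_radrad y z t
  · intro σ Λ hσ hΛ a b ha hab hlog hK hR
    exact key2M k y z hky hkz hyz ρ σ K Λ hρ hσ hΛ a b ha hab hlog hK hR

/-- the trivial bound -/
theorem main_triv (d : ℕ) (ρ K ε : ℝ) (hρ0 : 0 ≤ ρ) (hε : 0 < ε) :
    ∃ C : ℝ, 0 < C ∧ ∀ V : ℕ, 0 < V → ∀ N : ℕ, 1 ≤ N → ∀ Λ : ℝ, 1 ≤ Λ →
      ∀ S : Finset (ℕ × (ℕ × ℕ)), (∀ t ∈ S, TC d K ρ V N Λ t) →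
      (S.card : ℝ) ≤ C * (N : ℝ) ^ (ρ + ε) * Λ ^ (-1 : ℝ) := by
  refine triples_abs d K ρ (ρ + ε) 1 hρ0 ?_
  intro k y z hky hkz hyz
  refine role_abs (fun Q t => condT k Q t.1 t.2) (fun V t => isXd d V k t.1 t.2)
    (fun t => (rad (side t.1 t.2 y) : ℝ) * rad (side t.1 t.2 z)) ρ 1 ρ K ε
    hρ0 (by norm_num) (by norm_num) hρ0 (by linarith) hε ?_ ?_ ?_ ?_
  · obtain ⟨C, hC, h⟩ := countT k (ε / 2) (by positivity)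
    refine ⟨C, hC, fun V hV X hX Q hQ S hS => h X hX Q hQ S (fun t ht => ?_)⟩
    exact ⟨(hS t ht).1, (hS t ht).2.2⟩
  · intro Q Q' hQ t h
    exact le_trans h hQ
  · intro t
    exact one_le_radrad y z t
  · intro σ Λ hσ hΛ a b ha hab hlog hK hR
    have hb : 0 < b := lt_of_lt_of_le ha hab
    have hΛ0 : 0 < Λ := by linarith
    have hc1 : (1 : ℝ) ≤ ((a + b : ℕ) : ℝ) := by exact_mod_cast (by omega : 1 ≤ a + b)
    have hc0 : (0 : ℝ) < ((a + b : ℕ) : ℝ) := by linarith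
    set R : ℝ := (rad (side a b y) : ℝ) * rad (side a b z) with hRdef
    have h1 : R * Λ ≤ ((a + b : ℕ) : ℝ) ^ σ * ((a + b : ℕ) : ℝ) ^ ρ := by
      refine le_trans hR ?_
      gcongr
    have h2 : R ≤ ((a + b : ℕ) : ℝ) ^ (ρ + 10 * σ) * Λ ^ (-1 : ℝ) := by
      rw [Real.rpow_neg_one, ← div_eq_mul_inv, le_div_iff₀ hΛ0]
      refine h1.trans ?_
      rw [← Real.rpow_add hc0]
      exact Real.rpow_le_rpow_of_exponent_le hc1 (by linarith)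
    unfold condT
    refine le_trans (le_of_eq ?_) h2
    rw [hRdef]
    have hperm : ∀ k y z : Fin 3, k ≠ y → k ≠ z → y ≠ z →
      (k + 1 = y ∧ k + 2 = z) ∨ (k + 1 = z ∧ k + 2 = y) := by decide
    rcases hperm k y z hky hkz hyz with ⟨f1, f2⟩ | ⟨f1, f2⟩
    · rw [f1, f2]; push_cast; ring
    · rw [f1, f2]; push_cast; ring

/-- the exponents -/
def TwoBound (θ β ρ K : ℝ) : Prop :=
  ∀ ε : ℝ, 0 < ε → ∃ C : ℝ, 0 < C ∧ ∀ V : ℕ, 0 < V → ∀ N : ℕ, 1 ≤ N → ∀ Λ : ℝ, 1 ≤ Λ →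
      ∀ S : Finset (ℕ × (ℕ × ℕ)), (∀ t ∈ S, TC 2 K ρ V N Λ t) →
      (S.card : ℝ) ≤ C * (N : ℝ) ^ (θ + ε) * Λ ^ (-β)

theorem bound_main (ρ K : ℝ) (hρ0 : 0 ≤ ρ) (hρ : ρ ≤ 1 / 2) :
    TwoBound (1 / 4 + 3 / 8 * ρ) (3 / 8) ρ K := fun ε hε => main_two ρ K ε hρ0 hρ hε

theorem bound_triv (ρ K : ℝ) (hρ0 : 0 ≤ ρ) : TwoBound ρ 1 ρ K :=
  fun ε hε => main_triv 2 ρ K ε hρ0 hε

end Pool.Agent.W270.TM
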