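import Pool.Agent.H925R.Two.Data
import Pool.Agent.H925R.Two.Count
import Pool.Agent.W270.TM.MainM
import Pool.Agent.H510R2.Div

/-!
# Counting: all curves with a rational 2-torsion point, with the size `max (|a|³, b²)`
-/

set_option autoImplicit false
set_option linter.unusedVariables false

namespace Pool.Agent.W270.TM

open Finset
open Pool.Agent.H328R2.ABC
open Pool.Agent.H925R.Szpiro (D IsMin condS int_root)
open Pool.Agent.H925R.Two (sqf sqf_spec sqf_sq sum_keys HasRoot root_bound mdl2 two_data cond_lower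
  min_no_pow)

/-- the parameter `Λ` -/
noncomputable def LamM (ρ : ℝ) (g1 gb g3 : ℕ) : ℝ :=
  (g1 : ℝ) ^ (2 - ρ) * (gb : ℝ) ^ (2 - 2 * ρ) * (g3 : ℝ) ^ (2 - 3 * ρ)

theorem LamM_one (ρ : ℝ) (hρ : ρ ≤ 1 / 2) (g1 gb g3 : ℕ) (h1 : 0 < g1) (hb : 0 < gb)
    (h3 : 0 < g3) : 1 ≤ LamM ρ g1 gb g3 := by
  have a1 : (1 : ℝ) ≤ g1 := by exact_mod_cast h1
  have ab : (1 : ℝ) ≤ gb := by exact_mod_cast hb
  have a3 : (1 : ℝ) ≤ g3 := by exact_mod_cast h3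
  have b1 : (1 : ℝ) ≤ (g1 : ℝ) ^ (2 - ρ) := Real.one_le_rpow a1 (by linarith)
  have b2 : (1 : ℝ) ≤ (gb : ℝ) ^ (2 - 2 * ρ) := Real.one_le_rpow ab (by linarith)
  have b3 : (1 : ℝ) ≤ (g3 : ℝ) ^ (2 - 3 * ρ) := Real.one_le_rpow a3 (by linarith)
  unfold LamM
  have c1 : (1 : ℝ) ≤ (g1 : ℝ) ^ (2 - ρ) * (gb : ℝ) ^ (2 - 2 * ρ) := by nlinarith
  nlinarith

/-- the exponents of the three parameters are at least one -/
theorem weight_boundM (θ β ρ M : ℝ) (hM : 0 ≤ M) (w1 : 1 ≤ θ + β * (2 - ρ))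
    (w2 : 1 ≤ 2 * θ + β * (2 - 2 * ρ)) (w3 : 1 ≤ 3 * θ + β * (2 - 3 * ρ)) (g1 gb g3 : ℕ)
    (h1 : 0 < g1) (hb : 0 < gb) (h3 : 0 < g3) :
    (M / ((g1 : ℝ) * gb ^ 2 * g3 ^ 3)) ^ θ * LamM ρ g1 gb g3 ^ (-β) ≤
      M ^ θ * (1 / (g1 : ℝ) * (1 / (gb : ℝ) * (1 / (g3 : ℝ)))) := by
  have a1 : (1 : ℝ) ≤ g1 := by exact_mod_cast h1
  have ab : (1 : ℝ) ≤ gb := by exact_mod_cast hb
  have a3 : (1 : ℝ) ≤ g3 := by exact_mod_cast h3
  have e9 : LamM ρ g1 gb g3 =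
    (g1 : ℝ) ^ (2 - ρ) * (gb : ℝ) ^ (2 - 2 * ρ) * (g3 : ℝ) ^ (2 - 3 * ρ) := rfl
  set x : ℝ := (g1 : ℝ)
  set y : ℝ := (gb : ℝ)
  set w : ℝ := (g3 : ℝ)
  have x0 : 0 < x := by linarith
  have y0 : 0 < y := by linarith
  have w0 : 0 < w := by linarith
  set Y : ℝ := x * y ^ 2 * w ^ 3 with hY
  have hY0 : 0 < Y := by positivity
  rw [Real.div_rpow hM hY0.le, div_mul_eq_mul_div, mul_div_assoc]
  apply mul_le_mul_of_nonneg_left _ (by positivity)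
  have hL0 : 0 < LamM ρ g1 gb g3 := by rw [e9]; positivity
  rw [Real.rpow_neg hL0.le, div_eq_mul_inv, ← mul_inv]
  have e0 : (1 : ℝ) / x * (1 / y * (1 / w)) = (x * y * w)⁻¹ := by
    field_simp
  rw [e0]
  apply inv_anti₀ (by positivity)
  have e2 : Y ^ θ = x ^ θ * y ^ (2 * θ) * w ^ (3 * θ) := by
    rw [hY, Real.mul_rpow (by positivity) (by positivity), Real.mul_rpow (by positivity)
      (by positivity), ← Real.rpow_natCast y 2, ← Real.rpow_natCast w 3, ← Real.rpow_mul y0.le,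
      ← Real.rpow_mul w0.le]
    norm_num
  have e3 : LamM ρ g1 gb g3 ^ β =
      x ^ (β * (2 - ρ)) * y ^ (β * (2 - 2 * ρ)) * w ^ (β * (2 - 3 * ρ)) := by
    rw [e9, Real.mul_rpow (by positivity) (by positivity), Real.mul_rpow (by positivity)
      (by positivity), ← Real.rpow_mul x0.le, ← Real.rpow_mul y0.le, ← Real.rpow_mul w0.le]
    congr 1
    · congr 1
      · congr 1; ring
      · congr 1; ring
    · congr 1; ring
  have e4 : x ≤ x ^ θ * x ^ (β * (2 - ρ)) := by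
    rw [← Real.rpow_add x0]
    calc x = x ^ (1 : ℝ) := (Real.rpow_one _).symm
      _ ≤ _ := Real.rpow_le_rpow_of_exponent_le a1 w1
  have e5 : y ≤ y ^ (2 * θ) * y ^ (β * (2 - 2 * ρ)) := by
    rw [← Real.rpow_add y0]
    calc y = y ^ (1 : ℝ) := (Real.rpow_one _).symm
      _ ≤ _ := Real.rpow_le_rpow_of_exponent_le ab w2
  have e6 : w ≤ w ^ (3 * θ) * w ^ (β * (2 - 3 * ρ)) := by
    rw [← Real.rpow_add w0]
    calc w = w ^ (1 : ℝ) := (Real.rpow_one _).symm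
      _ ≤ _ := Real.rpow_le_rpow_of_exponent_le a3 w3
  calc x * y * w ≤ (x ^ θ * x ^ (β * (2 - ρ))) * (y ^ (2 * θ) * y ^ (β * (2 - 2 * ρ))) *
        (w ^ (3 * θ) * w ^ (β * (2 - 3 * ρ))) := by
        gcongr
    _ = _ := by rw [e2, e3]; ring

/-- the exceptional models -/
def ExcTM (κ K : ℝ) (X : ℕ) : Set (ℤ × ℤ) :=
  {q | IsMin q.1 q.2 ∧ HasRoot q.1 q.2 ∧ |q.1| ≤ (X : ℤ) ^ 2 ∧ |q.2| ≤ (X : ℤ) ^ 3 ∧
    (condS q.1 q.2 : ℝ) ^ κ < K * max (|(q.1 : ℝ)| ^ 3) ((q.2 : ℝ) ^ 2)}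

/-- the constant -/
noncomputable def KM (κ K : ℝ) : ℝ := 6 * K ^ (1 / κ) * (6 ^ 5 : ℝ) ^ (3 / κ)

theorem rad_ineqM (κ R ga g1 gb g3 c S m Hm K : ℝ) (hκ : 6 ≤ κ) (hR : 0 ≤ R) (hga : 1 ≤ ga)
    (hg1 : 0 < g1) (hgb : 0 < gb) (hg3 : 0 < g3) (hc : 0 ≤ c) (hc6 : c ≤ 6 ^ 5) (hm : 0 ≤ m)
    (hK : 0 ≤ K) (hS : 0 ≤ S)
    (h1 : R * (ga * (g1 * g3 * gb)) * (g1 * g3 * gb) ≤ 6 * S) (h2 : S ^ κ < K * Hm)
    (h3 : Hm ≤ ((c * g1 * (ga * gb) ^ 2 * g3 ^ 3) * m) ^ 3) :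
    R * (g1 ^ (2 - 3 / κ) * gb ^ (2 - 2 * (3 / κ)) * g3 ^ (2 - 3 * (3 / κ))) ≤
      KM κ K * m ^ (3 / κ) := by
  have hκ0 : 0 < κ := by linarith
  set ρ : ℝ := 3 / κ with hρ
  have hρ0 : 0 < ρ := by positivity
  have hρ2 : ρ ≤ 1 / 2 := by
    rw [hρ, div_le_iff₀ hκ0]
    linarith
  have hga0 : 0 < ga := by linarith
  -- `S ≤ K^(1/κ) (G m)^ρ`
  set G : ℝ := c * g1 * (ga * gb) ^ 2 * g3 ^ 3 with hG
  have hG0 : 0 ≤ G := by positivity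
  have s1 : S ≤ K ^ (1 / κ) * (G * m) ^ ρ := by
    have e1 : S = (S ^ κ) ^ (1 / κ) := by
      rw [← Real.rpow_mul hS, mul_one_div_cancel hκ0.ne', Real.rpow_one]
    have e2 : S ^ κ ≤ K * (G * m) ^ 3 := by
      refine h2.le.trans ?_
      exact mul_le_mul_of_nonneg_left h3 hK
    have e3 : (S ^ κ) ^ (1 / κ) ≤ (K * (G * m) ^ 3) ^ (1 / κ) :=
      Real.rpow_le_rpow (by positivity) e2 (by positivity)
    have e4 : (K * (G * m) ^ 3) ^ (1 / κ) = K ^ (1 / κ) * (G * m) ^ ρ := by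
      rw [Real.mul_rpow hK (by positivity), ← Real.rpow_natCast (G * m) 3,
        ← Real.rpow_mul (by positivity)]
      congr 2
      rw [hρ]
      push_cast
      ring
    rw [← e4]
    rw [e1]
    exact e3
  -- splitting `G`
  set P : ℝ := g1 ^ ρ * ga ^ (2 * ρ) * gb ^ (2 * ρ) * g3 ^ (3 * ρ) with hP
  have hP0 : 0 < P := by positivity
  have s2 : (G * m) ^ ρ ≤ (6 ^ 5 : ℝ) ^ ρ * P * m ^ ρ := by
    have e1 : G * m ≤ (6 ^ 5 : ℝ) * (g1 * (ga ^ 2 * gb ^ 2) * g3 ^ 3) * m := by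
      rw [hG]
      have : c * g1 * (ga * gb) ^ 2 * g3 ^ 3 = c * (g1 * (ga ^ 2 * gb ^ 2) * g3 ^ 3) := by ring
      rw [this]
      gcongr
    refine (Real.rpow_le_rpow (by positivity) e1 hρ0.le).trans (le_of_eq ?_)
    rw [Real.mul_rpow (by positivity) hm, Real.mul_rpow (by positivity) (by positivity),
      Real.mul_rpow (by positivity) (by positivity), Real.mul_rpow (by positivity) (by positivity),
      Real.mul_rpow (by positivity) (by positivity), ← Real.rpow_natCast ga 2,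
      ← Real.rpow_natCast gb 2, ← Real.rpow_natCast g3 3, ← Real.rpow_mul hga0.le,
      ← Real.rpow_mul hgb.le, ← Real.rpow_mul hg3.le, hP]
    push_cast
    ring
  have s3 : R * (g1 ^ (2 - ρ) * gb ^ (2 - 2 * ρ) * g3 ^ (2 - 3 * ρ)) * P ≤
      (KM κ K * m ^ ρ) * P := by
    have e1 : g1 ^ (2 - ρ) * g1 ^ ρ = g1 ^ 2 := by
      rw [← Real.rpow_add hg1, ← Real.rpow_natCast g1 2]
      congr 1
      push_cast
      ring
    have e2 : gb ^ (2 - 2 * ρ) * gb ^ (2 * ρ) = gb ^ 2 := by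
      rw [← Real.rpow_add hgb, ← Real.rpow_natCast gb 2]
      congr 1
      push_cast
      ring
    have e3 : g3 ^ (2 - 3 * ρ) * g3 ^ (3 * ρ) = g3 ^ 2 := by
      rw [← Real.rpow_add hg3, ← Real.rpow_natCast g3 2]
      congr 1
      push_cast
      ring
    have e4 : ga ^ (2 * ρ) ≤ ga := by
      calc ga ^ (2 * ρ) ≤ ga ^ (1 : ℝ) := Real.rpow_le_rpow_of_exponent_le hga (by linarith)
        _ = ga := Real.rpow_one _
    calc R * (g1 ^ (2 - ρ) * gb ^ (2 - 2 * ρ) * g3 ^ (2 - 3 * ρ)) * P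
        = R * ((g1 ^ (2 - ρ) * g1 ^ ρ) * (gb ^ (2 - 2 * ρ) * gb ^ (2 * ρ)) *
            (g3 ^ (2 - 3 * ρ) * g3 ^ (3 * ρ)) * ga ^ (2 * ρ)) := by rw [hP]; ring
      _ = R * (g1 ^ 2 * gb ^ 2 * g3 ^ 2 * ga ^ (2 * ρ)) := by rw [e1, e2, e3]
      _ ≤ R * (g1 ^ 2 * gb ^ 2 * g3 ^ 2 * ga) := by gcongr
      _ = R * (ga * (g1 * g3 * gb)) * (g1 * g3 * gb) := by ring
      _ ≤ 6 * S := h1
      _ ≤ 6 * (K ^ (1 / κ) * ((6 ^ 5 : ℝ) ^ ρ * P * m ^ ρ)) := by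
          have := mul_le_mul_of_nonneg_left s2 (Real.rpow_nonneg hK (1 / κ))
          linarith
      _ = (KM κ K * m ^ ρ) * P := by
          unfold KM
          ring
  exact le_of_mul_le_mul_right s3 hP0

/-- the finite set of `(κ, t)` -/
noncomputable def FFM (K ρ : ℝ) (M : ℕ) : Finset ((ℕ × (ℕ × (ℕ × ℕ))) × (ℕ × (ℕ × ℕ))) := by
  classical
  exact (((Icc 1 (6 ^ 5)) ×ˢ (Icc 1 M ×ˢ (Icc 1 M ×ˢ Icc 1 M))) ×ˢ
    (Icc 1 M ×ˢ (Icc 1 M ×ˢ Icc 1 M))).filter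
    (fun u => TC 2 K ρ (sqf (u.1.1 * u.1.2.1 * u.1.2.2.2))
      (M / (u.1.2.1 * u.1.2.2.1 ^ 2 * u.1.2.2.2 ^ 3)) (LamM ρ u.1.2.1 u.1.2.2.1 u.1.2.2.2) u.2)

theorem data_memM (κ K : ℝ) (hκ : 6 ≤ κ) (hK : 0 < K) (X : ℕ) (hX : 1 ≤ X) (a b : ℤ)
    (h : (a, b) ∈ ExcTM κ K X) (hb0 : b ≠ 0) :
    ∃ (sA sB : ℤ) (Ga : ℕ) (u : (ℕ × (ℕ × (ℕ × ℕ))) × (ℕ × (ℕ × ℕ))),
      (sA = 1 ∨ sA = -1) ∧ (sB = 1 ∨ sB = -1) ∧ Ga ∣ u.2.2.1 * u.2.2.2 ∧
      u ∈ FFM (KM κ K) (3 / κ) (88 * X ^ 2) ∧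
      mdl2 ((sA, sB), (Ga, u)) = (a, b) := by
  classical
  obtain ⟨hmin, ⟨r, hr⟩, ha, hb, hbig⟩ := h
  simp only at hmin hr ha hb hbig
  obtain ⟨e, rfl⟩ : ∃ e : ℤ, (e : ℚ) = r := by
    refine int_root 0 (-a) (-b) r ?_
    push_cast
    linear_combination hr
  have he : e ^ 3 = a * e + b := by
    have : (e : ℚ) ^ 3 = a * e + b := by linear_combination hr
    exact_mod_cast this
  have he0 : e ≠ 0 := by
    rintro rfl
    apply hb0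
    linarith
  obtain ⟨c, G1, Ga, Gb, G3, x, y, z, sB, hsB, hc, hc6, hG1, hGa, hGb, hG3, hx0, hy0, hz0, hyz,
    hrel, hxe, hye, hze, hdvd, hcond⟩ := two_data a b e hmin he he0
  set G : ℕ := c * G1 * (Ga * Gb) ^ 2 * G3 ^ 3 with hG
  have hGpos : 0 < G := by rw [hG]; positivity
  have hGge : G1 * Gb ^ 2 * G3 ^ 3 ≤ G := by
    rw [hG]
    calc G1 * Gb ^ 2 * G3 ^ 3 = 1 * G1 * (1 * Gb) ^ 2 * G3 ^ 3 := by ring
      _ ≤ c * G1 * (Ga * Gb) ^ 2 * G3 ^ 3 := by gcongr <;> omega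
  -- sizes
  have heX := root_bound a b e X hX ha hb he
  have he2 : e ^ 2 ≤ (2 * (X : ℤ)) ^ 2 := by
    rw [← sq_abs e]
    exact pow_le_pow_left₀ (abs_nonneg e) heX 2
  have hB1 : |3 * e ^ 2 - a| ≤ 13 * (X : ℤ) ^ 2 := by
    calc |3 * e ^ 2 - a| ≤ |3 * e ^ 2| + |a| := abs_sub _ _
      _ ≤ 3 * e ^ 2 + (X : ℤ) ^ 2 := by
          rw [abs_of_nonneg (by positivity : (0 : ℤ) ≤ 3 * e ^ 2)]
          linarith
      _ ≤ _ := by nlinarith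
  have hXsq : (0 : ℤ) ≤ (X : ℤ) ^ 2 := by positivity
  have hGx : G * x ≤ 88 * X ^ 2 := by
    have : ((G * x : ℕ) : ℤ) ≤ ((88 * X ^ 2 : ℕ) : ℤ) := by
      push_cast
      rw [← hxe]
      nlinarith
    exact_mod_cast this
  have hGyA : ((G : ℤ) * y) = 4 * |3 * e ^ 2 - a| := by
    have e2 : |4 * (3 * e ^ 2 - a)| = |sB * ((G : ℤ) * y)| := by rw [hye]
    rw [abs_mul, abs_mul] at e2
    have e3 : |sB| = 1 := by rcases hsB with h | h <;> rw [h] <;> norm_num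
    have e4 : |((G : ℤ) * y)| = (G : ℤ) * y := abs_of_nonneg (by positivity)
    rw [e3, e4, one_mul] at e2
    rw [← e2]
    norm_num
  have hGy : G * y ≤ 88 * X ^ 2 := by
    have : ((G * y : ℕ) : ℤ) ≤ ((88 * X ^ 2 : ℕ) : ℤ) := by
      push_cast
      rw [hGyA]
      linarith
    exact_mod_cast this
  have hGz : G * z ≤ 88 * X ^ 2 := by
    have : ((G * z : ℕ) : ℤ) ≤ ((88 * X ^ 2 : ℕ) : ℤ) := by
      push_cast
      rw [← hze]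
      calc |9 * e ^ 2 - 4 * (3 * e ^ 2 - a)| ≤ |9 * e ^ 2| + |4 * (3 * e ^ 2 - a)| := abs_sub _ _
        _ = 9 * e ^ 2 + 4 * |3 * e ^ 2 - a| := by
            rw [abs_of_nonneg (by positivity : (0 : ℤ) ≤ 9 * e ^ 2), abs_mul]
            norm_num
        _ ≤ _ := by nlinarith
    exact_mod_cast this
  have hM : ∀ w : ℕ, G * w ≤ 88 * X ^ 2 → w ≤ 88 * X ^ 2 / (G1 * Gb ^ 2 * G3 ^ 3) := by
    intro w hw
    rw [Nat.le_div_iff_mul_le (by positivity)]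
    calc w * (G1 * Gb ^ 2 * G3 ^ 3) ≤ w * G := Nat.mul_le_mul_left _ hGge
      _ = G * w := by ring
      _ ≤ _ := hw
  have hMd : ∀ w : ℕ, w ∣ G → w ≤ 88 * X ^ 2 := by
    intro w hw
    calc w ≤ G := Nat.le_of_dvd hGpos hw
      _ = G * 1 := (mul_one G).symm
      _ ≤ G * x := Nat.mul_le_mul_left _ hx0
      _ ≤ _ := hGx
  have hMw : ∀ w : ℕ, G * w ≤ 88 * X ^ 2 → w ≤ 88 * X ^ 2 := by
    intro w hw
    calc w = 1 * w := (one_mul w).symm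
      _ ≤ G * w := Nat.mul_le_mul_right _ hGpos
      _ ≤ _ := hw
  -- square
  have hsqr : ∃ s : ℕ, 0 < s ∧ x = sqf (c * G1 * G3) * s ^ 2 := by
    have e1 : G * x = (3 * e.natAbs) ^ 2 := by
      have : ((G * x : ℕ) : ℤ) = (((3 * e.natAbs) ^ 2 : ℕ) : ℤ) := by
        push_cast
        rw [← hxe, mul_pow, sq_abs]
        ring
      exact_mod_cast this
    have e2 : (Ga * Gb * G3) ^ 2 ∣ (3 * e.natAbs) ^ 2 := by
      rw [← e1, hG]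
      exact ⟨c * G1 * G3 * x, by ring⟩
    obtain ⟨m, hm⟩ := (Nat.pow_dvd_pow_iff (by norm_num)).mp e2
    refine sqf_sq (c * G1 * G3) x m (by positivity) hx0 ?_
    have e3 : (Ga * Gb * G3) ^ 2 * (x * (c * G1 * G3)) = (Ga * Gb * G3) ^ 2 * m ^ 2 := by
      calc (Ga * Gb * G3) ^ 2 * (x * (c * G1 * G3)) = G * x := by rw [hG]; ring
        _ = (3 * e.natAbs) ^ 2 := e1
        _ = _ := by rw [hm]; ring
    exact Nat.eq_of_mul_eq_mul_left (by positivity) e3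
  -- the radical
  have hradR : (rad y : ℝ) * rad z * LamM (3 / κ) G1 Gb G3 ≤
      KM κ K * ((max x (max y z) : ℕ) : ℝ) ^ (3 / κ) := by
    set m : ℕ := max x (max y z) with hm
    have hxm : x ≤ m := le_max_left _ _
    have hym : y ≤ m := (le_max_left _ _).trans (le_max_right _ _)
    -- the size
    have hsize : max (|(a : ℝ)| ^ 3) ((b : ℝ) ^ 2) ≤
        (((c : ℝ) * G1 * (Ga * Gb) ^ 2 * G3 ^ 3) * m) ^ 3 := by
      set g : ℝ := (G : ℝ) * m with hg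
      have hg0 : 0 ≤ g := by positivity
      have hgG : ((c : ℝ) * G1 * (Ga * Gb) ^ 2 * G3 ^ 3) * m = g := by
        rw [hg, hG]; push_cast; ring
      rw [hgG]
      have he9 : 9 * (e : ℝ) ^ 2 ≤ g := by
        have h1 : (9 * (e : ℝ) ^ 2) = (G : ℝ) * x := by exact_mod_cast hxe
        rw [h1, hg]
        have : (x : ℝ) ≤ m := by exact_mod_cast hxm
        gcongr
      have hB4 : 4 * |3 * (e : ℝ) ^ 2 - a| ≤ g := by
        have h1 : (G : ℝ) * y = 4 * |3 * (e : ℝ) ^ 2 - a| := by exact_mod_cast hGyA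
        rw [← h1, hg]
        have : (y : ℝ) ≤ m := by exact_mod_cast hym
        gcongr
      have hab := abs_le.mp (show |3 * (e : ℝ) ^ 2 - a| ≤ g / 4 by linarith)
      have he20 : 0 ≤ (e : ℝ) ^ 2 := sq_nonneg _
      have haG : |(a : ℝ)| ≤ g := by
        rw [abs_le]
        constructor
        · linarith [hab.2]
        · linarith [hab.1]
      have hbe : (b : ℝ) = e * ((e : ℝ) ^ 2 - a) := by
        have h1 : (e : ℝ) ^ 3 = a * e + b := by exact_mod_cast he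
        linear_combination -h1
      refine max_le (pow_le_pow_left₀ (abs_nonneg _) haG 3) ?_
      have h2 : ((e : ℝ) ^ 2 - a) ^ 2 ≤ g ^ 2 := by
        rw [sq_le_sq, abs_of_nonneg hg0, abs_le]
        constructor
        · linarith [hab.1]
        · linarith [hab.2]
      have h3 : (e : ℝ) ^ 2 ≤ g := by linarith
      calc (b : ℝ) ^ 2 = (e : ℝ) ^ 2 * ((e : ℝ) ^ 2 - a) ^ 2 := by rw [hbe]; ring
        _ ≤ g * g ^ 2 := mul_le_mul h3 h2 (sq_nonneg _) hg0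
        _ = g ^ 3 := by ring
    have hcR : (rad (y * z) : ℝ) * ((Ga : ℝ) * ((G1 : ℝ) * G3 * Gb)) * ((G1 : ℝ) * G3 * Gb) ≤
        6 * (condS a b : ℝ) := by exact_mod_cast hcond
    have hc6R : (c : ℝ) ≤ 6 ^ 5 := by exact_mod_cast hc6
    have hGaR : (1 : ℝ) ≤ Ga := by exact_mod_cast hGa
    have hG1R : (0 : ℝ) < G1 := by exact_mod_cast hG1
    have hGbR : (0 : ℝ) < Gb := by exact_mod_cast hGb
    have hG3R : (0 : ℝ) < G3 := by exact_mod_cast hG3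
    have hrr : (rad y : ℝ) * rad z = rad (y * z) := by
      rw [rad_mul hyz]; push_cast; ring
    rw [hrr]
    exact rad_ineqM κ (rad (y * z)) Ga G1 Gb G3 c (condS a b) m
      (max (|(a : ℝ)| ^ 3) ((b : ℝ) ^ 2)) K hκ (Nat.cast_nonneg _) hGaR hG1R hGbR hG3R
      (Nat.cast_nonneg _) hc6R (Nat.cast_nonneg _) hK.le (Nat.cast_nonneg _) hcR hbig hsize
  -- signs
  obtain ⟨sA, hsA, hsAe⟩ : ∃ sA : ℤ, (sA = 1 ∨ sA = -1) ∧ e = sA * |e| := by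
    rcases le_total 0 e with h0 | h0
    · exact ⟨1, Or.inl rfl, by rw [abs_of_nonneg h0]; ring⟩
    · exact ⟨-1, Or.inr rfl, by rw [abs_of_nonpos h0]; ring⟩
  refine ⟨sA, sB, Ga, ((c, (G1, (Gb, G3))), (x, (y, z))), hsA, hsB, hdvd, ?_, ?_⟩
  · unfold FFM
    rw [mem_filter]
    refine ⟨?_, hx0, hy0, hz0, hyz, hrel, hM x hGx, hM y hGy, hM z hGz, hsqr, hradR⟩
    simp only [mem_product, mem_Icc]
    refine ⟨⟨⟨hc, hc6⟩, ⟨hG1, hMd G1 ?_⟩, ⟨hGb, hMd Gb ?_⟩, ⟨hG3, hMd G3 ?_⟩⟩, ⟨hx0, hMw x hGx⟩,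
      ⟨hy0, hMw y hGy⟩, ⟨hz0, hMw z hGz⟩⟩
    · rw [hG]; exact ⟨c * (Ga * Gb) ^ 2 * G3 ^ 3, by ring⟩
    · rw [hG]; exact ⟨c * G1 * Ga ^ 2 * Gb * G3 ^ 3, by ring⟩
    · rw [hG]; exact ⟨c * G1 * (Ga * Gb) ^ 2 * G3 ^ 2, by ring⟩
  · unfold mdl2
    simp only
    have e1 : G * x = (3 * e.natAbs) ^ 2 := by
      have : ((G * x : ℕ) : ℤ) = (((3 * e.natAbs) ^ 2 : ℕ) : ℤ) := by
        push_cast
        rw [← hxe, mul_pow, sq_abs]
        ring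
      exact_mod_cast this
    rw [← hG, e1, Nat.sqrt_eq']
    have e2 : sA * (((3 * e.natAbs : ℕ)) : ℤ) / 3 = e := by
      have : sA * (((3 * e.natAbs : ℕ)) : ℤ) = e * 3 := by
        push_cast
        rw [show sA * (3 * |e|) = (sA * |e|) * 3 by ring, ← hsAe]
      rw [this]
      exact Int.mul_ediv_cancel _ (by norm_num)
    rw [e2]
    have e3 : sB * ((G : ℤ) * (y : ℤ)) / 4 = 3 * e ^ 2 - a := by
      rw [← hye]
      exact Int.mul_ediv_cancel_left _ (by norm_num)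
    rw [e3]
    have e4 : 3 * e ^ 2 - (3 * e ^ 2 - a) = a := by ring
    rw [e4]
    refine Prod.ext rfl ?_
    simp only
    linarith

end Pool.Agent.W270.TM
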